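import Pool.Agent.H59.Vec.Defs

namespace H59.Vec

open Finset

universe u

variable {Ω Ω' α β γ : Type*} [Fintype Ω] [Fintype Ω']

theorem e1_pr_nonneg {p : Ω → ℝ} (hp : IsProb p) (f : Ω → α) (c : α) : 0 ≤ pr p f c := by
  classical
  unfold pr
  refine Finset.sum_nonneg fun ω _ => ?_
  split_ifs
  · exact hp.nonneg ω
  · exact le_rfl

theorem e1_le_pr {p : Ω → ℝ} (hp : IsProb p) (f : Ω → α) (ω : Ω) : p ω ≤ pr p f (f ω) := by
  classical
  unfold pr
  have h := Finset.single_le_sum (f := fun ω' => if f ω' = f ω then p ω' else 0)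
    (fun ω' _ => by
      show 0 ≤ (if f ω' = f ω then p ω' else 0)
      split_ifs
      · exact hp.nonneg ω'
      · exact le_rfl) (Finset.mem_univ ω)
  simpa using h

theorem e1_pr_pos {p : Ω → ℝ} (hp : IsProb p) (f : Ω → α) {ω : Ω} (h : 0 < p ω) :
    0 < pr p f (f ω) := lt_of_lt_of_le h (e1_le_pr hp f ω)

theorem e1_pr_le_one {p : Ω → ℝ} (hp : IsProb p) (f : Ω → α) (c : α) : pr p f c ≤ 1 := by
  classical
  unfold pr
  rw [← hp.sum_one]
  refine Finset.sum_le_sum fun ω _ => ?_
  split_ifs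
  · exact le_rfl
  · exact hp.nonneg ω

theorem e1_pr_mono {p : Ω → ℝ} (hp : IsProb p) {f : Ω → α} {c : Ω → β}
    (h : ∀ ω ω', f ω = f ω' → c ω = c ω') (ω : Ω) : pr p f (f ω) ≤ pr p c (c ω) := by
  classical
  unfold pr
  refine Finset.sum_le_sum fun ω' _ => ?_
  by_cases h1 : f ω' = f ω
  · rw [if_pos h1, if_pos (h _ _ h1)]
  · rw [if_neg h1]
    split_ifs
    · exact hp.nonneg ω'
    · exact le_rfl

theorem e1_pr_eq_zero {p : Ω → ℝ} {f : Ω → α} {c : α} (h : ∀ ω, f ω ≠ c) : pr p f c = 0 := by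
  classical
  unfold pr
  exact Finset.sum_eq_zero fun ω _ => if_neg (h ω)

/-- the entropy as a sum over values -/
theorem e1_ent_eq_sum (p : Ω → ℝ) (f : Ω → α) (s : Finset α) (hs : ∀ ω, f ω ∈ s) :
    ent p f = ∑ c ∈ s, Real.negMulLog (pr p f c) := by
  classical
  have h1 : ∀ c ∈ s, Real.negMulLog (pr p f c)
      = ∑ ω, if f ω = c then -(p ω * Real.log (pr p f (f ω))) else 0 := by
    intro c _
    rw [Real.negMulLog]
    have h2 : -pr p f c * Real.log (pr p f c)
        = ∑ ω, -(if f ω = c then p ω else 0) * Real.log (pr p f c) := by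
      rw [← Finset.sum_mul, Finset.sum_neg_distrib]
      rfl
    rw [h2]
    refine Finset.sum_congr rfl fun ω _ => ?_
    by_cases h3 : f ω = c
    · rw [if_pos h3, if_pos h3, h3]; ring
    · rw [if_neg h3, if_neg h3]; ring
  rw [Finset.sum_congr rfl h1, Finset.sum_comm, ent, ← Finset.sum_neg_distrib]
  refine Finset.sum_congr rfl fun ω _ => ?_
  rw [Finset.sum_ite_eq s (f ω), if_pos (hs ω)]

theorem ent_congr {p : Ω → ℝ} {q : Ω' → ℝ} {f : Ω → α} {g : Ω' → α}
    (h : ∀ c, pr p f c = pr q g c) : ent p f = ent q g := by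
  classical
  rw [e1_ent_eq_sum p f (univ.image f ∪ univ.image g)
      (fun ω => Finset.mem_union_left _ (Finset.mem_image_of_mem f (Finset.mem_univ ω))),
    e1_ent_eq_sum q g (univ.image f ∪ univ.image g)
      (fun ω => Finset.mem_union_right _ (Finset.mem_image_of_mem g (Finset.mem_univ ω)))]
  exact Finset.sum_congr rfl fun c _ => by rw [h c]

theorem ent_mono {p : Ω → ℝ} (hp : IsProb p) {f : Ω → α} {c : Ω → β}
    (h : ∀ ω ω', f ω = f ω' → c ω = c ω') : ent p c ≤ ent p f := by
  unfold ent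
  refine neg_le_neg (Finset.sum_le_sum fun ω _ => ?_)
  rcases (hp.nonneg ω).eq_or_lt with h0 | h0
  · rw [← h0]; simp
  · exact mul_le_mul_of_nonneg_left
      (Real.log_le_log (e1_pr_pos hp f h0) (e1_pr_mono hp h ω)) h0.le

/-- Gibbs' inequality -/
theorem e1_gibbs {p : Ω → ℝ} (hp : IsProb p) (r : Ω → ℝ) (hr : ∀ ω, 0 < p ω → 0 < r ω)
    (hs : ∑ ω, p ω * r ω ≤ 1) : ∑ ω, p ω * Real.log (r ω) ≤ 0 := by
  have h1 : ∑ ω, p ω * Real.log (r ω) ≤ ∑ ω, p ω * (r ω - 1) := by
    refine Finset.sum_le_sum fun ω _ => ?_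
    rcases (hp.nonneg ω).eq_or_lt with h0 | h0
    · rw [← h0]; simp
    · exact mul_le_mul_of_nonneg_left (Real.log_le_sub_one_of_pos (hr ω h0)) h0.le
  have h2 : ∑ ω, p ω * (r ω - 1) = ∑ ω, p ω * r ω - ∑ ω, p ω := by
    rw [← Finset.sum_sub_distrib]
    exact Finset.sum_congr rfl fun ω _ => by rw [mul_sub, mul_one]
  rw [hp.sum_one] at h2
  linarith

/-- submodularity: `c` is a function of `f` and also a function of `g` -/
theorem ent_master {p : Ω → ℝ} (hp : IsProb p) {f : Ω → α} {g : Ω → β} {c : Ω → γ}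
    (hf : ∀ ω ω', f ω = f ω' → c ω = c ω') (hg : ∀ ω ω', g ω = g ω' → c ω = c ω') :
    ent p (fun ω => (f ω, g ω)) + ent p c ≤ ent p f + ent p g := by
  classical
  have key := e1_gibbs hp (fun ω => pr p f (f ω) * pr p g (g ω)
      / (pr p (fun ω => (f ω, g ω)) (f ω, g ω) * pr p c (c ω)))
    (fun ω h => by
      have h1 := e1_pr_pos hp f h
      have h2 := e1_pr_pos hp g h
      have h3 := e1_pr_pos hp (fun ω => (f ω, g ω)) h
      have h4 := e1_pr_pos hp c h
      positivity) ?_
  · have h5 : ∑ ω, p ω * Real.log (pr p f (f ω) * pr p g (g ω)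
        / (pr p (fun ω => (f ω, g ω)) (f ω, g ω) * pr p c (c ω)))
        = ∑ ω, (p ω * Real.log (pr p f (f ω)) + p ω * Real.log (pr p g (g ω))
          - p ω * Real.log (pr p (fun ω => (f ω, g ω)) (f ω, g ω))
          - p ω * Real.log (pr p c (c ω))) := by
      refine Finset.sum_congr rfl fun ω _ => ?_
      rcases (hp.nonneg ω).eq_or_lt with h0 | h0
      · rw [← h0]; simp
      · have h1 := e1_pr_pos hp f h0
        have h2 := e1_pr_pos hp g h0
        have h3 := e1_pr_pos hp (fun ω => (f ω, g ω)) h0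
        have h4 := e1_pr_pos hp c h0
        rw [Real.log_div (by positivity) (by positivity), Real.log_mul h1.ne' h2.ne',
          Real.log_mul h3.ne' h4.ne']
        ring
    rw [h5, Finset.sum_sub_distrib, Finset.sum_sub_distrib, Finset.sum_add_distrib] at key
    unfold ent
    linarith
  · -- the mass bound
    have hFG : ∀ ω, pr p f (f ω) * pr p g (g ω)
        = ∑ w1, ∑ w2, (if f w1 = f ω then p w1 else 0) * (if g w2 = g ω then p w2 else 0) := by
      intro ω
      rw [pr, pr, Finset.sum_mul_sum]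
    have hstep : ∀ ω, p ω * (pr p f (f ω) * pr p g (g ω)
        / (pr p (fun ω => (f ω, g ω)) (f ω, g ω) * pr p c (c ω)))
        = ∑ w1, ∑ w2, (if c w1 = c w2 then p w1 * p w2 / pr p c (c w1) else 0)
          * ((if (f ω, g ω) = (f w1, g w2) then p ω else 0)
            / pr p (fun ω => (f ω, g ω)) (f w1, g w2)) := by
      intro ω
      rw [mul_div_assoc', hFG, Finset.mul_sum, Finset.sum_div]
      refine Finset.sum_congr rfl fun w1 _ => ?_
      rw [Finset.mul_sum, Finset.sum_div]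
      refine Finset.sum_congr rfl fun w2 _ => ?_
      by_cases h1 : f w1 = f ω
      · by_cases h2 : g w2 = g ω
        · have h3 : c w1 = c ω := hf _ _ h1
          have h4 : c w2 = c ω := hg _ _ h2
          rw [if_pos h1, if_pos h2, if_pos (h3.trans h4.symm),
            if_pos (by rw [h1, h2]), h1, h2, h3]
          rw [div_mul_div_comm]
          congr 1 <;> ring
        · have h3 : ¬ ((f ω, g ω) = (f w1, g w2)) := fun h => h2 (Prod.mk.inj h).2.symm
          rw [if_neg h2, if_neg h3]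
          simp
      · have h3 : ¬ ((f ω, g ω) = (f w1, g w2)) := fun h => h1 (Prod.mk.inj h).1.symm
        rw [if_neg h1, if_neg h3]
        simp
    calc ∑ ω, p ω * (pr p f (f ω) * pr p g (g ω)
          / (pr p (fun ω => (f ω, g ω)) (f ω, g ω) * pr p c (c ω)))
        = ∑ ω, ∑ w1, ∑ w2, (if c w1 = c w2 then p w1 * p w2 / pr p c (c w1) else 0)
          * ((if (f ω, g ω) = (f w1, g w2) then p ω else 0)
            / pr p (fun ω => (f ω, g ω)) (f w1, g w2)) :=
          Finset.sum_congr rfl fun ω _ => hstep ω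
      _ = ∑ w1, ∑ w2, ∑ ω, (if c w1 = c w2 then p w1 * p w2 / pr p c (c w1) else 0)
          * ((if (f ω, g ω) = (f w1, g w2) then p ω else 0)
            / pr p (fun ω => (f ω, g ω)) (f w1, g w2)) := by
          rw [Finset.sum_comm]
          exact Finset.sum_congr rfl fun w1 _ => Finset.sum_comm
      _ = ∑ w1, ∑ w2, (if c w1 = c w2 then p w1 * p w2 / pr p c (c w1) else 0)
          * (pr p (fun ω => (f ω, g ω)) (f w1, g w2)
            / pr p (fun ω => (f ω, g ω)) (f w1, g w2)) := by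
          refine Finset.sum_congr rfl fun w1 _ => Finset.sum_congr rfl fun w2 _ => ?_
          rw [← Finset.mul_sum, ← Finset.sum_div]
          have h1 : ∑ ω, (if (f ω, g ω) = (f w1, g w2) then p ω else 0)
              = pr p (fun ω => (f ω, g ω)) (f w1, g w2) := by
            unfold pr
            exact Finset.sum_congr rfl fun _ _ => by congr
          rw [h1]
      _ ≤ ∑ w1, ∑ w2, (if c w1 = c w2 then p w1 * p w2 / pr p c (c w1) else 0) := by
          refine Finset.sum_le_sum fun w1 _ => Finset.sum_le_sum fun w2 _ => ?_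
          have h1 : 0 ≤ (if c w1 = c w2 then p w1 * p w2 / pr p c (c w1) else 0) := by
            split_ifs
            · exact div_nonneg (mul_nonneg (hp.nonneg _) (hp.nonneg _)) (e1_pr_nonneg hp _ _)
            · exact le_rfl
          exact mul_le_of_le_one_right h1 (div_self_le_one _)
      _ = ∑ w1, p w1 * (pr p c (c w1) / pr p c (c w1)) := by
          refine Finset.sum_congr rfl fun w1 _ => ?_
          conv_rhs => rw [pr, mul_div_assoc', Finset.mul_sum, Finset.sum_div]
          refine Finset.sum_congr rfl fun w2 _ => ?_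
          by_cases h1 : c w1 = c w2
          · rw [if_pos h1, if_pos h1.symm]
            rfl
          · rw [if_neg h1, if_neg (fun h => h1 h.symm)]
            simp
      _ ≤ ∑ w1, p w1 := Finset.sum_le_sum fun w1 _ =>
          mul_le_of_le_one_right (hp.nonneg _) (div_self_le_one _)
      _ = 1 := hp.sum_one

theorem ent_const {p : Ω → ℝ} (hp : IsProb p) (c : α) : ent p (fun _ => c) = 0 := by
  classical
  unfold ent pr
  simp [hp.sum_one]

theorem ent_nonneg {p : Ω → ℝ} (hp : IsProb p) (f : Ω → α) : 0 ≤ ent p f := by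
  have h := ent_mono hp (f := f) (c := fun _ => ()) (fun _ _ _ => rfl)
  rwa [ent_const hp] at h

theorem ent_subadd {p : Ω → ℝ} (hp : IsProb p) (f : Ω → α) (g : Ω → β) :
    ent p (fun ω => (f ω, g ω)) ≤ ent p f + ent p g := by
  have h := ent_master hp (f := f) (g := g) (c := fun _ => ()) (fun _ _ _ => rfl)
    (fun _ _ _ => rfl)
  rwa [ent_const hp, add_zero] at h

theorem IsProb.pm {p : Ω → ℝ} {q : Ω' → ℝ} (hp : IsProb p) (hq : IsProb q) :
    IsProb (pm p q) := by
  refine ⟨fun x => mul_nonneg (hp.nonneg _) (hq.nonneg _), ?_⟩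
  unfold H59.Vec.pm
  rw [Fintype.sum_prod_type]
  simp only
  simp_rw [← Finset.mul_sum, hq.sum_one, mul_one]
  exact hp.sum_one

theorem e1_pr_pm_fst {p : Ω → ℝ} {q : Ω' → ℝ} (hq : IsProb q) (f : Ω → α) (c : α) :
    pr (H59.Vec.pm p q) (fun x => f x.1) c = pr p f c := by
  classical
  unfold pr H59.Vec.pm
  rw [Fintype.sum_prod_type]
  refine Finset.sum_congr rfl fun ω _ => ?_
  simp only
  by_cases h : f ω = c
  · simp only [h, if_true]
    rw [← Finset.mul_sum, hq.sum_one, mul_one]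
  · simp [h]

theorem e1_pr_pm_snd {p : Ω → ℝ} {q : Ω' → ℝ} (hp : IsProb p) (g : Ω' → α) (c : α) :
    pr (H59.Vec.pm p q) (fun x => g x.2) c = pr q g c := by
  classical
  unfold pr H59.Vec.pm
  rw [Fintype.sum_prod_type_right]
  refine Finset.sum_congr rfl fun ω _ => ?_
  simp only
  by_cases h : g ω = c
  · simp only [h, if_true]
    rw [← Finset.sum_mul, hp.sum_one, one_mul]
  · simp [h]

theorem e1_pr_pm_prod {p : Ω → ℝ} {q : Ω' → ℝ} (f : Ω → α) (g : Ω' → β) (c : α) (d : β) :
    pr (H59.Vec.pm p q) (fun x => (f x.1, g x.2)) (c, d) = pr p f c * pr q g d := by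
  classical
  unfold pr H59.Vec.pm
  rw [Finset.sum_mul_sum, Fintype.sum_prod_type]
  refine Finset.sum_congr rfl fun a _ => Finset.sum_congr rfl fun b _ => ?_
  simp only [Prod.mk.injEq]
  by_cases h1 : f a = c
  · by_cases h2 : g b = d
    · simp [h1, h2]
    · simp [h2]
  · simp [h1]

theorem ent_fst {p : Ω → ℝ} {q : Ω' → ℝ} (hq : IsProb q) (f : Ω → α) :
    ent (H59.Vec.pm p q) (fun x => f x.1) = ent p f :=
  ent_congr fun c => e1_pr_pm_fst hq f c

theorem ent_snd {p : Ω → ℝ} {q : Ω' → ℝ} (hp : IsProb p) (g : Ω' → α) :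
    ent (H59.Vec.pm p q) (fun x => g x.2) = ent q g :=
  ent_congr fun c => e1_pr_pm_snd hp g c

theorem ent_prod {p : Ω → ℝ} {q : Ω' → ℝ} (hp : IsProb p) (hq : IsProb q)
    (f : Ω → α) (g : Ω' → β) :
    ent (H59.Vec.pm p q) (fun x => (f x.1, g x.2)) = ent p f + ent q g := by
  have h1 : ∀ x : Ω × Ω', H59.Vec.pm p q x
      * Real.log (pr (H59.Vec.pm p q) (fun x => (f x.1, g x.2)) (f x.1, g x.2))
      = H59.Vec.pm p q x * Real.log (pr (H59.Vec.pm p q) (fun x => f x.1) (f x.1))
        + H59.Vec.pm p q x * Real.log (pr (H59.Vec.pm p q) (fun x => g x.2) (g x.2)) := by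
    rintro ⟨a, b⟩
    rcases (hp.nonneg a).eq_or_lt with h0 | h0
    · simp [H59.Vec.pm, ← h0]
    rcases (hq.nonneg b).eq_or_lt with h0' | h0'
    · simp [H59.Vec.pm, ← h0']
    rw [e1_pr_pm_prod, e1_pr_pm_fst hq, e1_pr_pm_snd hp,
      Real.log_mul (e1_pr_pos hp f h0).ne' (e1_pr_pos hq g h0').ne']
    ring
  rw [← ent_fst (p := p) hq f, ← ent_snd (q := q) hp g]
  unfold ent
  rw [Finset.sum_congr rfl fun x _ => h1 x, Finset.sum_add_distrib]
  ring

end H59.Vec
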