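import Pool.Agent.H59.Vec.Defs
import Pool.Agent.H59.Vec.E1

namespace H59.Vec

open Finset

universe u

variable {G : Type u} [AddCommGroup G]

theorem law_coeff {Ω : Type*} [Fintype Ω] (p : Ω → ℝ) (f : Ω → G) (g : G) :
    (law p f).coeff g = pr p f g := by
  classical
  unfold law pr
  rw [AddMonoidAlgebra.coeff_sum, Finsupp.finset_sum_apply]
  refine sum_congr rfl fun ω _ => ?_
  rw [AddMonoidAlgebra.coeff_single, Finsupp.single_apply]

private lemma L_pr_of_not_mem [DecidableEq G] {Ω : Type*} [Fintype Ω] (p : Ω → ℝ) (f : Ω → G)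
    (g : G) (hg : g ∉ univ.image f) : pr p f g = 0 := by
  classical
  unfold pr
  refine sum_eq_zero fun ω _ => ?_
  rw [if_neg]
  rintro rfl
  exact hg (mem_image_of_mem _ (mem_univ _))

private lemma L_supp_sub [DecidableEq G] {Ω : Type*} [Fintype Ω] (p : Ω → ℝ) (f : Ω → G) :
    (law p f).coeff.support ⊆ univ.image f := by
  classical
  intro g hg
  rw [Finsupp.mem_support_iff, law_coeff] at hg
  by_contra h
  exact hg (L_pr_of_not_mem p f g h)

private lemma L_sum_pr [DecidableEq G] {Ω : Type*} [Fintype Ω] (p : Ω → ℝ) (f : Ω → G)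
    (φ : G → ℝ) : ∑ g ∈ univ.image f, pr p f g * φ g = ∑ ω, p ω * φ (f ω) := by
  classical
  have h1 : ∀ g, pr p f g * φ g = ∑ ω, if f ω = g then p ω * φ (f ω) else 0 := by
    intro g
    unfold pr
    rw [sum_mul]
    refine sum_congr rfl fun ω _ => ?_
    by_cases h : f ω = g
    · simp [h]
    · simp [h]
  rw [sum_congr rfl fun g _ => h1 g, sum_comm]
  refine sum_congr rfl fun ω _ => ?_
  rw [sum_ite_eq, if_pos (mem_image_of_mem _ (mem_univ _))]

theorem Hm_law {Ω : Type*} [Fintype Ω] (p : Ω → ℝ) (f : Ω → G) :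
    Hm (law p f) = ent p f := by
  classical
  unfold Hm
  rw [sum_subset (L_supp_sub p f) (fun g _ hg => by
    rw [Finsupp.notMem_support_iff] at hg
    rw [hg, Real.negMulLog_zero])]
  have h1 : ∀ g, Real.negMulLog ((law p f).coeff g) = -(pr p f g * Real.log (pr p f g)) := by
    intro g
    rw [law_coeff, Real.negMulLog]
    ring
  rw [sum_congr rfl fun g _ => h1 g, sum_neg_distrib,
    L_sum_pr p f (fun g => Real.log (pr p f g))]
  rfl

theorem isLaw_law {Ω : Type*} [Fintype Ω] {p : Ω → ℝ} (hp : IsProb p) (f : Ω → G) :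
    IsLaw (law p f) := by
  classical
  constructor
  · intro g
    rw [law_coeff]
    unfold pr
    refine sum_nonneg fun ω _ => ?_
    split_ifs
    · exact hp.nonneg ω
    · exact le_rfl
  · rw [sum_subset (L_supp_sub p f) (fun g _ hg => by
      rw [Finsupp.notMem_support_iff] at hg
      exact hg)]
    have h1 : ∀ g, (law p f).coeff g = pr p f g * 1 := by
      intro g
      rw [law_coeff, mul_one]
    rw [sum_congr rfl fun g _ => h1 g, L_sum_pr p f (fun _ => 1)]
    simpa using hp.sum_one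

theorem IsLaw.exists_rep {μ : AddMonoidAlgebra ℝ G} (h : IsLaw μ) :
    ∃ (Ω : Type u) (_ : Fintype Ω) (p : Ω → ℝ) (f : Ω → G), IsProb p ∧ law p f = μ := by
  classical
  refine ⟨{g // g ∈ μ.coeff.support}, inferInstance, fun g => μ.coeff g.1, fun g => g.1,
    ⟨fun g => h.nonneg _, ?_⟩, ?_⟩
  · rw [← h.sum_one]
    exact sum_coe_sort μ.coeff.support (fun g => μ.coeff g)
  · refine AddMonoidAlgebra.ext ?_
    refine Finsupp.ext fun g => ?_
    rw [law_coeff]
    unfold pr
    rw [sum_coe_sort μ.coeff.support (fun g' => if g' = g then μ.coeff g' else 0), sum_ite_eq']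
    split_ifs with hg
    · rfl
    · rw [Finsupp.notMem_support_iff] at hg
      exact hg.symm

theorem law_mul {Ω Ω' : Type*} [Fintype Ω] [Fintype Ω'] (p : Ω → ℝ) (f : Ω → G)
    (q : Ω' → ℝ) (g : Ω' → G) :
    law p f * law q g = law (pm p q) (fun x => f x.1 + g x.2) := by
  unfold law
  rw [sum_mul_sum, Fintype.sum_prod_type]
  refine sum_congr rfl fun i _ => sum_congr rfl fun j _ => ?_
  rw [AddMonoidAlgebra.single_mul_single]
  rfl

theorem dil_law {Ω : Type*} [Fintype Ω] (k : ℤ) (p : Ω → ℝ) (f : Ω → G) :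
    dil k (law p f) = law p (fun ω => k • f ω) := by
  unfold law
  rw [map_sum]
  refine sum_congr rfl fun ω _ => ?_
  change AddMonoidAlgebra.mapDomain _ _ = _
  rw [AddMonoidAlgebra.mapDomain_single]
  rfl

private lemma L_unit : IsProb (fun _ : Unit => (1 : ℝ)) :=
  ⟨fun _ => zero_le_one, by simp⟩

theorem isLaw_single (g : G) : IsLaw (AddMonoidAlgebra.single g (1 : ℝ)) := by
  have h := isLaw_law L_unit (fun _ => g)
  unfold law at h
  simpa using h

theorem isLaw_one : IsLaw (1 : AddMonoidAlgebra ℝ G) := by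
  rw [AddMonoidAlgebra.one_def]
  exact isLaw_single 0

theorem IsLaw.mul {μ ν : AddMonoidAlgebra ℝ G} (hμ : IsLaw μ) (hν : IsLaw ν) :
    IsLaw (μ * ν) := by
  obtain ⟨Ω, _, p, f, hp, rfl⟩ := hμ.exists_rep
  obtain ⟨Ω', _, q, g, hq, rfl⟩ := hν.exists_rep
  rw [law_mul]
  exact isLaw_law (hp.pm hq) _

theorem IsLaw.pow {μ : AddMonoidAlgebra ℝ G} (hμ : IsLaw μ) (n : ℕ) : IsLaw (μ ^ n) := by
  induction n with
  | zero => rw [pow_zero]; exact isLaw_one
  | succ n ih => rw [pow_succ]; exact ih.mul hμ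

theorem IsLaw.dil {μ : AddMonoidAlgebra ℝ G} (hμ : IsLaw μ) (k : ℤ) :
    IsLaw (H59.Vec.dil k μ) := by
  obtain ⟨Ω, _, p, f, hp, rfl⟩ := hμ.exists_rep
  rw [dil_law]
  exact isLaw_law hp _

private lemma L_dil_eq (k : ℤ) (μ : AddMonoidAlgebra ℝ G) :
    dil k μ = AddMonoidAlgebra.ofCoeff (Finsupp.mapDomain (fun g : G => k • g) μ.coeff) := rfl

theorem dil_dil (k l : ℤ) (μ : AddMonoidAlgebra ℝ G) : dil k (dil l μ) = dil (k * l) μ := by
  rw [L_dil_eq, L_dil_eq, L_dil_eq]
  congr 1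
  rw [AddMonoidAlgebra.coeff_ofCoeff, ← Finsupp.mapDomain_comp]
  congr 1
  funext g
  simp only [Function.comp]
  rw [mul_smul]

theorem dil_one (μ : AddMonoidAlgebra ℝ G) : dil 1 μ = μ := by
  rw [L_dil_eq]
  have h : (fun g : G => (1 : ℤ) • g) = id := by
    funext g
    rw [one_smul]
    rfl
  rw [h, Finsupp.mapDomain_id]

private lemma L_Hm_map (e : G → G) (he : Function.Injective e) (μ : AddMonoidAlgebra ℝ G) :
    Hm (AddMonoidAlgebra.ofCoeff (Finsupp.mapDomain e μ.coeff) : AddMonoidAlgebra ℝ G)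
      = Hm μ := by
  classical
  unfold Hm
  rw [AddMonoidAlgebra.coeff_ofCoeff, Finsupp.mapDomain_support_of_injective he,
    sum_image fun _ _ _ _ h => he h]
  refine sum_congr rfl fun g _ => ?_
  rw [Finsupp.mapDomain_apply he]

theorem Hm_neg {μ : AddMonoidAlgebra ℝ G} : Hm (dil (-1) μ) = Hm μ := by
  rw [L_dil_eq]
  refine L_Hm_map _ (fun a b h => ?_) μ
  simpa using h

theorem Hm_single_mul {μ : AddMonoidAlgebra ℝ G} (g : G) :
    Hm (AddMonoidAlgebra.single g (1 : ℝ) * μ) = Hm μ := by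
  have hinj : Function.Injective (fun h : G => g + h) := add_right_injective g
  rw [← L_Hm_map (fun h => g + h) hinj μ]
  congr 1
  refine AddMonoidAlgebra.ext (Finsupp.ext fun h => ?_)
  rw [AddMonoidAlgebra.coeff_single_mul_apply, AddMonoidAlgebra.coeff_ofCoeff, one_mul]
  have h1 : h = (fun h : G => g + h) (-g + h) := by
    change h = g + (-g + h)
    abel
  conv_rhs => rw [h1]
  rw [Finsupp.mapDomain_apply hinj]

theorem Hm_nonneg {μ : AddMonoidAlgebra ℝ G} (hμ : IsLaw μ) : 0 ≤ Hm μ := by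
  unfold Hm
  refine sum_nonneg fun g hg => ?_
  refine Real.negMulLog_nonneg (hμ.nonneg g) ?_
  rw [← hμ.sum_one]
  exact single_le_sum (f := fun g => μ.coeff g) (fun i _ => hμ.nonneg i) hg

end H59.Vec
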