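import Pool.Agent.H59.Vec.Defs
import Pool.Agent.H59.Vec.E1
import Pool.Agent.H59.Vec.L

namespace H59.Vec

open Finset

universe u

variable {G : Type u} [AddCommGroup G]

private lemma law_fst {Ω Ω' : Type*} [Fintype Ω] [Fintype Ω'] (p : Ω → ℝ) {q : Ω' → ℝ}
    (hq : IsProb q) (f : Ω → G) : law (pm p q) (fun x => f x.1) = law p f := by
  unfold law pm
  rw [← univ_product_univ, sum_product]
  refine sum_congr rfl fun a _ => ?_
  dsimp only
  have h1 : ∀ b ∈ (univ : Finset Ω'), (AddMonoidAlgebra.single (f a) (p a * q b) :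
      AddMonoidAlgebra ℝ G) = q b • AddMonoidAlgebra.single (f a) (p a) := by
    intro b _
    rw [AddMonoidAlgebra.smul_single, smul_eq_mul, mul_comm]
  rw [sum_congr rfl h1, ← sum_smul, hq.sum_one, one_smul]

private lemma law_snd {Ω Ω' : Type*} [Fintype Ω] [Fintype Ω'] {p : Ω → ℝ} (hp : IsProb p)
    (q : Ω' → ℝ) (g : Ω' → G) : law (pm p q) (fun x => g x.2) = law q g := by
  unfold law pm
  rw [← univ_product_univ, sum_product, sum_comm]
  refine sum_congr rfl fun b _ => ?_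
  dsimp only
  have h1 : ∀ a ∈ (univ : Finset Ω), (AddMonoidAlgebra.single (g b) (p a * q b) :
      AddMonoidAlgebra ℝ G) = p a • AddMonoidAlgebra.single (g b) (q b) := by
    intro a _
    rw [AddMonoidAlgebra.smul_single, smul_eq_mul]
  rw [sum_congr rfl h1, ← sum_smul, hp.sum_one, one_smul]

theorem Hm_mono {μ ν : AddMonoidAlgebra ℝ G} (hμ : IsLaw μ) (hν : IsLaw ν) :
    Hm μ ≤ Hm (μ * ν) := by
  obtain ⟨Ω, _, p, f, hp, rfl⟩ := hμ.exists_rep
  obtain ⟨Ω', _, q, g, hq, rfl⟩ := hν.exists_rep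
  rw [law_mul, Hm_law, Hm_law]
  have hP := hp.pm hq
  have h1 := ent_prod hp hq f g
  have h2 : ent (pm p q) (fun x => (f x.1, g x.2)) ≤
      ent (pm p q) (fun x => (f x.1 + g x.2, g x.2)) := by
    refine ent_mono hP fun x y h => ?_
    simp only [Prod.mk.injEq] at h ⊢
    refine ⟨?_, h.2⟩
    have h3 := h.1
    rw [h.2] at h3
    exact add_right_cancel h3
  have h3 := ent_subadd hP (fun x => f x.1 + g x.2) (fun x => g x.2)
  have h4 := ent_snd (q := q) hp g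
  linarith

/-- the common core: three independent variables -/
private lemma core {Ω₁ Ω₂ Ω₃ : Type*} [Fintype Ω₁] [Fintype Ω₂] [Fintype Ω₃] {p : Ω₁ → ℝ}
    {q : Ω₂ → ℝ} {r : Ω₃ → ℝ} (hp : IsProb p) (hq : IsProb q) (hr : IsProb r) (f : Ω₁ → G)
    (g : Ω₂ → G) (h : Ω₃ → G) {α β γ : Type*} {F : Ω₁ × Ω₂ × Ω₃ → α} {K : Ω₁ × Ω₂ × Ω₃ → β}
    {c : Ω₁ × Ω₂ × Ω₃ → γ}
    (hF : ∀ ω ω', F ω = F ω' → c ω = c ω') (hK : ∀ ω ω', K ω = K ω' → c ω = c ω')
    (hFK : ∀ ω ω', F ω = F ω' → K ω = K ω' →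
      f ω.1 = f ω'.1 ∧ g ω.2.1 = g ω'.2.1 ∧ h ω.2.2 = h ω'.2.2) :
    ent p f + ent q g + ent r h + ent (pm p (pm q r)) c ≤
      ent (pm p (pm q r)) F + ent (pm p (pm q r)) K := by
  have hP := hp.pm (hq.pm hr)
  have h1 := ent_master hP hF hK
  have h2 : ent (pm p (pm q r)) (fun x => (f x.1, (fun y : Ω₂ × Ω₃ => (g y.1, h y.2)) x.2)) ≤
      ent (pm p (pm q r)) (fun x => (F x, K x)) := by
    refine ent_mono hP fun x y hxy => ?_
    simp only [Prod.mk.injEq] at hxy ⊢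
    exact hFK x y hxy.1 hxy.2
  have h3 := ent_prod hp (hq.pm hr) f (fun y : Ω₂ × Ω₃ => (g y.1, h y.2))
  have h4 := ent_prod hq hr g h
  linarith

theorem Hm_submod {α β γ : AddMonoidAlgebra ℝ G} (hα : IsLaw α) (hβ : IsLaw β)
    (hγ : IsLaw γ) : Hm (α * β * γ) + Hm β ≤ Hm (α * β) + Hm (β * γ) := by
  obtain ⟨Ω₁, _, p, f, hp, rfl⟩ := hα.exists_rep
  obtain ⟨Ω₂, _, q, g, hq, rfl⟩ := hβ.exists_rep
  obtain ⟨Ω₃, _, r, h, hr, rfl⟩ := hγ.exists_rep
  have hP := hp.pm (hq.pm hr)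
  have h1 := core hp hq hr f g h
    (F := fun x => (f x.1, (fun y : Ω₂ × Ω₃ => g y.1 + h y.2) x.2))
    (K := fun x => (f x.1 + g x.2.1, h x.2.2))
    (c := fun x => f x.1 + (fun y : Ω₂ × Ω₃ => g y.1 + h y.2) x.2)
    (fun x y hxy => by
      simp only [Prod.mk.injEq] at hxy ⊢
      rw [hxy.1, hxy.2])
    (fun x y hxy => by
      simp only [Prod.mk.injEq] at hxy ⊢
      rw [← add_assoc, ← add_assoc, hxy.1, hxy.2])
    (fun x y hxy hxy' => by
      simp only [Prod.mk.injEq] at hxy hxy'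
      refine ⟨hxy.1, ?_, hxy'.2⟩
      have h3 := hxy'.1
      rw [hxy.1] at h3
      exact add_left_cancel h3)
  have h2 := ent_prod hp (hq.pm hr) f (fun y : Ω₂ × Ω₃ => g y.1 + h y.2)
  have h3 := ent_subadd hP (fun x => f x.1 + g x.2.1) (fun x => h x.2.2)
  have h4 : ent (pm p (pm q r)) (fun x => h x.2.2) = ent r h := by
    rw [ent_snd hp (fun y : Ω₂ × Ω₃ => h y.2), ent_snd hq h]
  have h5 : ent (pm p (pm q r)) (fun x => f x.1 + g x.2.1) = Hm (law p f * law q g) := by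
    rw [← law_fst q hr g, law_mul, Hm_law]
  have h6 : ent (pm p (pm q r)) (fun x => f x.1 + (fun y : Ω₂ × Ω₃ => g y.1 + h y.2) x.2) =
      Hm (law p f * law q g * law r h) := by
    rw [mul_assoc, law_mul q g r h, law_mul, Hm_law]
  have h7 : ent (pm q r) (fun y : Ω₂ × Ω₃ => g y.1 + h y.2) = Hm (law q g * law r h) := by
    rw [law_mul, Hm_law]
  rw [Hm_law q g]
  linarith

theorem Hm_ruzsa {α β γ : AddMonoidAlgebra ℝ G} (hα : IsLaw α) (hβ : IsLaw β)
    (hγ : IsLaw γ) :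
    Hm (α * dil (-1) γ) + Hm β ≤ Hm (α * dil (-1) β) + Hm (β * dil (-1) γ) := by
  obtain ⟨Ω₁, _, p, f, hp, rfl⟩ := hα.exists_rep
  obtain ⟨Ω₂, _, q, g, hq, rfl⟩ := hβ.exists_rep
  obtain ⟨Ω₃, _, r, h, hr, rfl⟩ := hγ.exists_rep
  have hP := hp.pm (hq.pm hr)
  have h1 := core hp hq hr f g h
    (F := fun x => (f x.1, (fun y : Ω₂ × Ω₃ => h y.2) x.2))
    (K := fun x => (f x.1 + (-1 : ℤ) • g x.2.1, g x.2.1 + (-1 : ℤ) • h x.2.2))
    (c := fun x => f x.1 + (-1 : ℤ) • h x.2.2)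
    (fun x y hxy => by
      simp only [Prod.mk.injEq] at hxy ⊢
      rw [hxy.1, hxy.2])
    (fun x y hxy => by
      simp only [Prod.mk.injEq] at hxy ⊢
      have h3 := congrArg₂ (· + ·) hxy.1 hxy.2
      simp only [neg_smul, one_smul] at h3 ⊢
      simpa [add_assoc] using h3)
    (fun x y hxy hxy' => by
      simp only [Prod.mk.injEq] at hxy hxy'
      refine ⟨hxy.1, ?_, hxy.2⟩
      have h3 := hxy'.2
      rw [hxy.2] at h3
      exact add_right_cancel h3)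
  have h2 := ent_prod hp (hq.pm hr) f (fun y : Ω₂ × Ω₃ => h y.2)
  have h3 := ent_subadd hP (fun x => f x.1 + (-1 : ℤ) • g x.2.1)
    (fun x => g x.2.1 + (-1 : ℤ) • h x.2.2)
  have h4 : ent (pm q r) (fun y : Ω₂ × Ω₃ => h y.2) = ent r h := ent_snd hq h
  have h5 : ent (pm p (pm q r)) (fun x => f x.1 + (-1 : ℤ) • g x.2.1) =
      Hm (law p f * dil (-1) (law q g)) := by
    rw [dil_law, ← law_fst q hr (fun y => (-1 : ℤ) • g y), law_mul, Hm_law]
  have h6 : ent (pm p (pm q r)) (fun x => g x.2.1 + (-1 : ℤ) • h x.2.2) =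
      Hm (law q g * dil (-1) (law r h)) := by
    rw [dil_law, law_mul, Hm_law]
    exact ent_snd hp (fun y : Ω₂ × Ω₃ => g y.1 + (-1 : ℤ) • h y.2)
  have h7 : ent (pm p (pm q r)) (fun x => f x.1 + (-1 : ℤ) • h x.2.2) =
      Hm (law p f * dil (-1) (law r h)) := by
    rw [dil_law, ← law_snd hq r (fun y => (-1 : ℤ) • h y), law_mul, Hm_law]
  rw [Hm_law q g]
  linarith

theorem Hm_two {μ : AddMonoidAlgebra ℝ G} (hμ : IsLaw μ) :
    Hm (μ * dil (-2) μ) + Hm μ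
      ≤ Hm (μ * dil (-1) μ * dil (-1) μ) + Hm (μ * dil (-1) μ) := by
  obtain ⟨Ω, _, p, f, hp, rfl⟩ := hμ.exists_rep
  have hP := hp.pm (hp.pm hp)
  have h1 := core hp hp hp f f f
    (F := fun x => (f x.1, (fun y : Ω × Ω => f y.1) x.2))
    (K := fun x => (f x.1 + (fun y : Ω × Ω => (-1 : ℤ) • f y.1 + (-1 : ℤ) • f y.2) x.2,
      f x.2.1 + (-1 : ℤ) • f x.2.2))
    (c := fun x => f x.1 + (-2 : ℤ) • f x.2.1)
    (fun x y hxy => by
      simp only [Prod.mk.injEq] at hxy ⊢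
      rw [hxy.1, hxy.2])
    (fun x y hxy => by
      simp only [Prod.mk.injEq] at hxy ⊢
      have h3 := congrArg₂ (· - ·) hxy.1 hxy.2
      have h4 : ∀ a b c : G, a + ((-1 : ℤ) • b + (-1 : ℤ) • c) - (b + (-1 : ℤ) • c) =
          a + (-2 : ℤ) • b := by
        intro a b c
        module
      simp only [h4] at h3
      exact h3)
    (fun x y hxy hxy' => by
      simp only [Prod.mk.injEq] at hxy hxy'
      refine ⟨hxy.1, hxy.2, ?_⟩
      have h3 := hxy'.2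
      rw [hxy.2] at h3
      have h4 := add_left_cancel h3
      simpa using h4)
  have h2 := ent_prod hp (hp.pm hp) f (fun y : Ω × Ω => f y.1)
  have h3 := ent_subadd hP
    (fun x => f x.1 + (fun y : Ω × Ω => (-1 : ℤ) • f y.1 + (-1 : ℤ) • f y.2) x.2)
    (fun x => f x.2.1 + (-1 : ℤ) • f x.2.2)
  have h4 : ent (pm p p) (fun y : Ω × Ω => f y.1) = ent p f := ent_fst hp f
  have h5 : ent (pm p (pm p p))
      (fun x => f x.1 + (fun y : Ω × Ω => (-1 : ℤ) • f y.1 + (-1 : ℤ) • f y.2) x.2) =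
      Hm (law p f * dil (-1) (law p f) * dil (-1) (law p f)) := by
    rw [mul_assoc, dil_law, law_mul p _ p _, law_mul, Hm_law]
  have h6 : ent (pm p (pm p p)) (fun x => f x.2.1 + (-1 : ℤ) • f x.2.2) =
      Hm (law p f * dil (-1) (law p f)) := by
    rw [dil_law, law_mul, Hm_law]
    exact ent_snd hp (fun y : Ω × Ω => f y.1 + (-1 : ℤ) • f y.2)
  have h7 : ent (pm p (pm p p)) (fun x => f x.1 + (-2 : ℤ) • f x.2.1) =
      Hm (law p f * dil (-2) (law p f)) := by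
    rw [dil_law, ← law_fst p hp (fun y => (-2 : ℤ) • f y), law_mul, Hm_law]
  rw [Hm_law p f]
  linarith

theorem Hm_prod_le {ι : Type*} (s : Finset ι) {W : AddMonoidAlgebra ℝ G} (hW : IsLaw W)
    (B : ι → AddMonoidAlgebra ℝ G) (hB : ∀ i ∈ s, IsLaw (B i)) :
    Hm (W * ∏ i ∈ s, B i) ≤ Hm W + ∑ i ∈ s, (Hm (W * B i) - Hm W) := by
  classical
  induction s using Finset.induction_on with
  | empty => simp
  | insert a s ha ih =>
    have h1 := ih fun i hi => hB i (mem_insert_of_mem hi)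
    have hprod : IsLaw (∏ i ∈ s, B i) := by
      refine prod_induction B IsLaw (fun a b => IsLaw.mul) isLaw_one fun i hi => ?_
      exact hB i (mem_insert_of_mem hi)
    have h2 := Hm_submod (hB a (mem_insert_self a s)) hW hprod
    rw [prod_insert ha, sum_insert ha]
    have h3 : W * (B a * ∏ i ∈ s, B i) = B a * W * ∏ i ∈ s, B i := by ring
    rw [h3]
    rw [mul_comm (B a) W] at h2 ⊢
    linarith

end H59.Vec
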