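import Pool.Agent.H59.Vec.Defs
import Pool.Agent.H59.Vec.E1
import Pool.Agent.H59.Vec.L

namespace H59.Vec

open Finset

universe u

variable {G : Type u} [AddCommGroup G]

/-- concavity -/
theorem Hm_concave {Ω : Type*} [Fintype Ω] {P : Ω → ℝ} (hP : IsProb P)
    (μ : Ω → AddMonoidAlgebra ℝ G) (hμ : ∀ ω, IsLaw (μ ω)) :
    ∑ ω, P ω * Hm (μ ω) ≤ Hm (∑ ω, P ω • μ ω) := by
  classical
  set ν := ∑ ω, P ω • μ ω with hν
  set S : Finset G := ν.coeff.support ∪ univ.biUnion fun ω => (μ ω).coeff.support with hS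
  have h1 : ∀ τ : AddMonoidAlgebra ℝ G, τ.coeff.support ⊆ S →
      Hm τ = ∑ g ∈ S, Real.negMulLog (τ.coeff g) := by
    intro τ hτ
    unfold Hm
    refine sum_subset hτ fun g _ hg => ?_
    rw [Finsupp.notMem_support_iff.1 hg, Real.negMulLog_zero]
  have h2 : ∀ g, ν.coeff g = ∑ ω, P ω * (μ ω).coeff g := by
    intro g
    rw [hν]
    simp [AddMonoidAlgebra.coeff_sum, Finsupp.finsetSum_apply]
  rw [h1 ν subset_union_left]
  have h3 : ∀ ω, Hm (μ ω) = ∑ g ∈ S, Real.negMulLog ((μ ω).coeff g) := fun ω =>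
    h1 _ ((subset_biUnion_of_mem (fun ω => (μ ω).coeff.support) (mem_univ ω)).trans
      subset_union_right)
  simp only [h3, mul_sum]
  rw [sum_comm]
  refine sum_le_sum fun g _ => ?_
  rw [h2]
  have h4 := Real.concaveOn_negMulLog.le_map_sum (t := univ) (w := P)
    (p := fun ω => (μ ω).coeff g) (fun ω _ => hP.nonneg ω) hP.sum_one
    (fun ω _ => (hμ ω).nonneg g)
  simpa only [smul_eq_mul] using h4

end H59.Vec
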