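import Pool.Agent.H59.Vec.Defs
import Pool.Agent.H59.Vec.E1

namespace H59.Vec

open Finset

universe u

variable {Ω Ω' α β γ : Type*} [Fintype Ω] [Fintype Ω']

private lemma cpl_le_pr {p : Ω → ℝ} (hp : IsProb p) (f : Ω → α) (ω : Ω) :
    p ω ≤ pr p f (f ω) := by
  classical
  unfold pr
  refine le_trans (le_of_eq ?_) (single_le_sum (f := fun ω' => if f ω' = f ω then p ω' else 0)
    (fun ω' _ => ?_) (mem_univ ω))
  · simp
  · split_ifs
    · exact hp.nonneg ω'
    · exact le_rfl

private lemma cpl_pr_nonneg {p : Ω → ℝ} (hp : IsProb p) (f : Ω → α) (c : α) :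
    0 ≤ pr p f c := by
  classical
  unfold pr
  refine sum_nonneg fun ω _ => ?_
  split_ifs
  · exact hp.nonneg ω
  · exact le_rfl

private lemma cpl_symm (p : Ω → ℝ) (z : Ω → β) (x y : Ω) :
    cpl p z (x, y) = cpl p z (y, x) := by
  classical
  unfold cpl
  by_cases h : z x = z y
  · simp only [h, if_true]
    ring
  · have h' : ¬ z y = z x := fun h' => h h'.symm
    simp only [h, h', if_false]

theorem cpl_fst {p : Ω → ℝ} (hp : IsProb p) (z : Ω → β) (x : Ω) :
    ∑ y, cpl p z (x, y) = p x := by
  classical
  rcases (hp.nonneg x).eq_or_lt with h0 | h0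
  · rw [← h0]
    refine sum_eq_zero fun y _ => ?_
    unfold cpl
    simp only
    rw [← h0]
    simp
  · have hP : 0 < pr p z (z x) := h0.trans_le (cpl_le_pr hp z x)
    have h1 : ∀ y, cpl p z (x, y) = p x / pr p z (z x) * (if z y = z x then p y else 0) := by
      intro y
      unfold cpl
      by_cases h : z x = z y
      · have h' : z y = z x := h.symm
        simp only [h', if_true]
        ring
      · have h' : ¬ z y = z x := fun h' => h h'.symm
        simp only [h, h', if_false]
        ring
    rw [sum_congr rfl fun y _ => h1 y, ← mul_sum]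
    have h2 : ∑ y, (if z y = z x then p y else 0) = pr p z (z x) := by
      unfold pr
      rfl
    rw [h2]
    field_simp

theorem cpl_snd {p : Ω → ℝ} (hp : IsProb p) (z : Ω → β) (y : Ω) :
    ∑ x, cpl p z (x, y) = p y := by
  rw [sum_congr rfl fun x _ => cpl_symm p z x y]
  exact cpl_fst hp z y

private lemma cpl_nonneg {p : Ω → ℝ} (hp : IsProb p) (z : Ω → β) (x : Ω × Ω) :
    0 ≤ cpl p z x := by
  classical
  unfold cpl
  split_ifs
  · exact div_nonneg (mul_nonneg (hp.nonneg _) (hp.nonneg _)) (cpl_pr_nonneg hp _ _)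
  · exact le_rfl

theorem cpl_isProb {p : Ω → ℝ} (hp : IsProb p) (z : Ω → β) : IsProb (cpl p z) := by
  refine ⟨cpl_nonneg hp z, ?_⟩
  rw [Fintype.sum_prod_type]
  rw [sum_congr rfl fun x _ => cpl_fst hp z x]
  exact hp.sum_one

open Classical in
/-- if all fibres of `z` have at most `M` elements then the conditional entropy is at most
`log 2 + P(two conditionally independent copies differ) * log M` -/
theorem collision {p : Ω → ℝ} (hp : IsProb p) (z : Ω → β) (M : ℕ)
    (hM : ∀ b, (univ.filter (fun ω => z ω = b)).card ≤ M) :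
    ent p (fun ω => ω) - ent p z
      ≤ Real.log 2 + (∑ x : Ω × Ω, if x.1 ≠ x.2 then cpl p z x else 0) * Real.log M := by
  have hne : Nonempty Ω := by
    by_contra h
    rw [not_nonempty_iff] at h
    have := hp.sum_one
    rw [univ_eq_empty, sum_empty] at this
    exact zero_ne_one this
  obtain ⟨ω₀⟩ := hne
  have hM1 : 1 ≤ M := by
    refine le_trans ?_ (hM (z ω₀))
    exact card_pos.2 ⟨ω₀, by simp⟩
  have hM1' : (1 : ℝ) ≤ M := by exact_mod_cast hM1
  have hM0 : (0 : ℝ) < M := by linarith
  have hid : ∀ ω, pr p (fun ω => ω) ω = p ω := by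
    intro ω
    unfold pr
    simp
  -- the ratio
  have hL : ent p (fun ω => ω) - ent p z
      = ∑ x : Ω × Ω, cpl p z x * (Real.log (pr p z (z x.2)) - Real.log (p x.2)) := by
    rw [Fintype.sum_prod_type_right]
    have h1 : ∀ y, ∑ x, cpl p z (x, y) * (Real.log (pr p z (z y)) - Real.log (p y))
        = p y * Real.log (pr p z (z y)) - p y * Real.log (p y) := by
      intro y
      rw [← sum_mul, cpl_snd hp z y]
      ring
    have h2 : (∑ y, ∑ x, cpl p z (x, y) * (Real.log (pr p z (z (x, y).2)) - Real.log (p (x, y).2)))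
        = ∑ y, (p y * Real.log (pr p z (z y)) - p y * Real.log (p y)) :=
      sum_congr rfl fun y _ => h1 y
    rw [h2, sum_sub_distrib]
    unfold ent
    have h3 : ∑ ω, p ω * Real.log (pr p (fun ω => ω) ω) = ∑ ω, p ω * Real.log (p ω) :=
      sum_congr rfl fun ω _ => by rw [hid ω]
    rw [h3]
    ring
  -- pointwise inequality
  have hpt : ∀ x : Ω × Ω, cpl p z x * (Real.log (pr p z (z x.2)) - Real.log (p x.2))
      ≤ cpl p z x * Real.log 2 + (if x.1 ≠ x.2 then cpl p z x else 0) * Real.log M
        - cpl p z x
        + p x.1 * (if z x.2 = z x.1 then (if x.1 = x.2 then 1 / 2 else 1 / (2 * (M : ℝ)))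
            else 0) := by
    intro x
    have hr0 : (0 : ℝ) < (if x.1 = x.2 then 1 / 2 else 1 / (2 * (M : ℝ))) := by
      split_ifs <;> positivity
    rcases (cpl_nonneg hp z x).eq_or_lt with h0 | h0
    · rw [← h0]
      have h1 : 0 ≤ p x.1 * (if z x.2 = z x.1 then
          (if x.1 = x.2 then 1 / 2 else 1 / (2 * (M : ℝ))) else 0) := by
        refine mul_nonneg (hp.nonneg _) ?_
        split_ifs <;> positivity
      have h2 : (if x.1 ≠ x.2 then (0 : ℝ) else 0) = 0 := by split_ifs <;> rfl
      rw [h2]
      linarith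
    · have hz : z x.1 = z x.2 := by
        by_contra h
        unfold cpl at h0
        rw [if_neg h] at h0
        exact lt_irrefl _ h0
      have hc : cpl p z x = p x.1 * p x.2 / pr p z (z x.1) := by
        unfold cpl
        rw [if_pos hz]
      have h2pos : 0 < p x.2 := by
        rcases (hp.nonneg x.2).eq_or_lt with h | h
        · rw [hc, ← h] at h0
          simp at h0
        · exact h
      have hPpos : 0 < pr p z (z x.2) := h2pos.trans_le (cpl_le_pr hp z x.2)
      set r : ℝ := (if x.1 = x.2 then 1 / 2 else 1 / (2 * (M : ℝ))) with hr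
      rw [if_pos hz.symm]
      have h3 : Real.log (r * pr p z (z x.2) / p x.2) ≤ r * pr p z (z x.2) / p x.2 - 1 :=
        Real.log_le_sub_one_of_pos (by positivity)
      have h4 : Real.log (r * pr p z (z x.2) / p x.2)
          = Real.log r + Real.log (pr p z (z x.2)) - Real.log (p x.2) := by
        rw [Real.log_div (by positivity) h2pos.ne', Real.log_mul hr0.ne' hPpos.ne']
      rw [h4] at h3
      have h5 : cpl p z x * (r * pr p z (z x.2) / p x.2) = p x.1 * r := by
        rw [hc, hz]
        field_simp
      have h6 : - Real.log r = Real.log 2 + (if x.1 ≠ x.2 then Real.log M else 0) := by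
        by_cases hxx : x.1 = x.2
        · have : r = 1 / 2 := by rw [hr, if_pos hxx]
          rw [this, if_neg (not_not.2 hxx), one_div, Real.log_inv]
          ring
        · have : r = 1 / (2 * (M : ℝ)) := by rw [hr, if_neg hxx]
          rw [this, if_pos hxx, one_div, Real.log_inv, Real.log_mul (by norm_num) hM0.ne']
          ring
      have h7 : (if x.1 ≠ x.2 then cpl p z x else 0) * Real.log M
          = cpl p z x * (if x.1 ≠ x.2 then Real.log M else 0) := by
        split_ifs <;> ring
      rw [h7]
      have h8 := mul_le_mul_of_nonneg_left h3 h0.le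
      nlinarith [h8, h5, h6]
  rw [hL]
  refine (sum_le_sum fun x _ => hpt x).trans ?_
  rw [sum_add_distrib, sum_sub_distrib, sum_add_distrib, ← sum_mul, ← sum_mul,
    (cpl_isProb hp z).sum_one]
  have hlast : ∑ x : Ω × Ω, p x.1 * (if z x.2 = z x.1 then
      (if x.1 = x.2 then 1 / 2 else 1 / (2 * (M : ℝ))) else 0) ≤ 1 := by
    rw [Fintype.sum_prod_type]
    have h1 : ∀ x, ∑ y, p x * (if z y = z x then
        (if x = y then 1 / 2 else 1 / (2 * (M : ℝ))) else 0) ≤ p x := by
      intro x
      rw [← mul_sum]
      have h2 : ∑ y, (if z y = z x then (if x = y then 1 / 2 else 1 / (2 * (M : ℝ))) else 0)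
          ≤ 1 := by
        have h3 : ∀ y, (if z y = z x then (if x = y then 1 / 2 else 1 / (2 * (M : ℝ))) else 0)
            ≤ (if x = y then (1 / 2 : ℝ) else 0)
              + (if z y = z x then 1 / (2 * (M : ℝ)) else 0) := by
          intro y
          have : (0 : ℝ) < 1 / (2 * (M : ℝ)) := by positivity
          by_cases hzy : z y = z x
          · by_cases hxy : x = y
            · simp only [hzy, hxy, if_true]
              linarith
            · simp only [hzy, hxy, if_true, if_false]
              linarith
          · simp only [hzy, if_false]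
            split_ifs <;> norm_num
        refine (sum_le_sum fun y _ => h3 y).trans ?_
        rw [sum_add_distrib, sum_ite_eq, if_pos (mem_univ x), ← sum_filter, sum_const,
          nsmul_eq_mul]
        have h4 : ((univ.filter (fun ω => z ω = z x)).card : ℝ) ≤ M := by
          exact_mod_cast hM (z x)
        have h5 : ((univ.filter (fun ω => z ω = z x)).card : ℝ) * (1 / (2 * (M : ℝ)))
            ≤ M * (1 / (2 * (M : ℝ))) := by
          refine mul_le_mul_of_nonneg_right h4 (by positivity)
        have h6 : (M : ℝ) * (1 / (2 * (M : ℝ))) = 1 / 2 := by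
          field_simp
        linarith
      calc p x * _ ≤ p x * 1 := mul_le_mul_of_nonneg_left h2 (hp.nonneg x)
        _ = p x := mul_one _
    refine (sum_le_sum fun x _ => h1 x).trans ?_
    rw [hp.sum_one]
  linarith

end H59.Vec
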