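import Mathlib

/-!
Definitions for the difference-vector theorem (MP_fa3087_co): Shannon entropy on finite
weighted types, and laws as elements of the group algebra.
-/

namespace H59.Vec

open Finset

/-- A probability weight on a finite type. -/
structure IsProb {Ω : Type*} [Fintype Ω] (p : Ω → ℝ) : Prop where
  nonneg : ∀ ω, 0 ≤ p ω
  sum_one : ∑ ω, p ω = 1

open Classical in
/-- The mass of the fibre of `f` over `c`. -/
noncomputable def pr {Ω α : Type*} [Fintype Ω] (p : Ω → ℝ) (f : Ω → α) (c : α) : ℝ :=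
  ∑ ω, if f ω = c then p ω else 0

/-- Shannon entropy of the random variable `f`. -/
noncomputable def ent {Ω α : Type*} [Fintype Ω] (p : Ω → ℝ) (f : Ω → α) : ℝ :=
  -∑ ω, p ω * Real.log (pr p f (f ω))

/-- Product weight. -/
def pm {Ω Ω' : Type*} (p : Ω → ℝ) (q : Ω' → ℝ) : Ω × Ω' → ℝ := fun x => p x.1 * q x.2

open Classical in
/-- The conditional weight given that `g` takes its value at `ω₀`. -/
noncomputable def cond {Ω β : Type*} [Fintype Ω] (p : Ω → ℝ) (g : Ω → β) (ω₀ : Ω) : Ω → ℝ :=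
  fun ω => if g ω = g ω₀ then p ω / pr p g (g ω₀) else 0

open Classical in
/-- The coupling of two conditionally independent copies given `z`. -/
noncomputable def cpl {Ω β : Type*} [Fintype Ω] (p : Ω → ℝ) (z : Ω → β) : Ω × Ω → ℝ :=
  fun x => if z x.1 = z x.2 then p x.1 * p x.2 / pr p z (z x.1) else 0

/-- The law of `f` as an element of the group algebra. -/
noncomputable def law {Ω G : Type*} [Fintype Ω] [AddCommGroup G] (p : Ω → ℝ) (f : Ω → G) :
    AddMonoidAlgebra ℝ G :=
  ∑ ω, AddMonoidAlgebra.single (f ω) (p ω)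

/-- Shannon entropy of a law. -/
noncomputable def Hm {G : Type*} (μ : AddMonoidAlgebra ℝ G) : ℝ :=
  ∑ g ∈ μ.coeff.support, Real.negMulLog (μ.coeff g)

/-- A finitely supported probability on `G`. -/
structure IsLaw {G : Type*} (μ : AddMonoidAlgebra ℝ G) : Prop where
  nonneg : ∀ g, 0 ≤ μ.coeff g
  sum_one : ∑ g ∈ μ.coeff.support, μ.coeff g = 1

/-- A probability supported on the finite set `A`. -/
def OnA {G : Type*} (A : Finset G) (μ : AddMonoidAlgebra ℝ G) : Prop :=
  IsLaw μ ∧ ∀ g, μ.coeff g ≠ 0 → g ∈ A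

/-- Dilation of a law by an integer. -/
noncomputable def dil {G : Type*} [AddCommGroup G] (k : ℤ) :
    AddMonoidAlgebra ℝ G →+* AddMonoidAlgebra ℝ G :=
  AddMonoidAlgebra.mapDomainRingHom ℝ (zsmulAddGroupHom k : G →+ G)

/-- The functional that is minimised. -/
noncomputable def Fn {G : Type*} [AddCommGroup G] (t : ℝ) (μ ν : AddMonoidAlgebra ℝ G) : ℝ :=
  Hm (μ * dil (-1) ν) - (1 + t) / 2 * (Hm μ + Hm ν)

end H59.Vec
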