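import Pool.Agent.H59.Vec.Defs
import Pool.Agent.H59.Vec.E1

namespace H59.Vec

open Finset

universe u

variable {Ω Ω' α β γ : Type*} [Fintype Ω] [Fintype Ω']

private lemma le_pr {p : Ω → ℝ} (hp : IsProb p) (f : Ω → α) (ω : Ω) : p ω ≤ pr p f (f ω) := by
  classical
  unfold pr
  refine le_trans (le_of_eq ?_) (single_le_sum (f := fun ω' => if f ω' = f ω then p ω' else 0)
    (fun ω' _ => ?_) (mem_univ ω))
  · simp
  · split_ifs
    · exact hp.nonneg ω'
    · exact le_rfl

private lemma nonempty_of_isProb {p : Ω → ℝ} (hp : IsProb p) : Nonempty Ω := by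
  by_contra h
  rw [not_nonempty_iff] at h
  have := hp.sum_one
  rw [univ_eq_empty, sum_empty] at this
  exact zero_ne_one this

private lemma pr_id (p : Ω → ℝ) (ω : Ω) : pr p (fun ω => ω) ω = p ω := by
  classical
  unfold pr
  simp

theorem ent_le_log_card {p : Ω → ℝ} (hp : IsProb p) (f : Ω → α) (s : Finset α)
    (hs : ∀ ω, f ω ∈ s) : ent p f ≤ Real.log s.card := by
  classical
  obtain ⟨ω₀⟩ := nonempty_of_isProb hp
  have hN : 0 < s.card := card_pos.2 ⟨_, hs ω₀⟩
  have hN' : (0 : ℝ) < s.card := by exact_mod_cast hN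
  have h1 : ∀ ω, -(p ω * Real.log (pr p f (f ω))) ≤
      (p ω / pr p f (f ω)) / s.card - p ω + p ω * Real.log s.card := by
    intro ω
    rcases (hp.nonneg ω).eq_or_lt with h0 | h0
    · rw [← h0]
      simp
    · have hP : 0 < pr p f (f ω) := h0.trans_le (le_pr hp f ω)
      have h2 := Real.log_le_sub_one_of_pos (show 0 < (s.card * pr p f (f ω))⁻¹ by positivity)
      rw [Real.log_inv, Real.log_mul hN'.ne' hP.ne'] at h2
      have h3 := mul_le_mul_of_nonneg_left h2 h0.le
      have h4 : p ω * ((s.card * pr p f (f ω))⁻¹ - 1) = (p ω / pr p f (f ω)) / s.card - p ω := by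
        field_simp
      rw [h4] at h3
      linarith
  have h2 : ∑ ω, p ω / pr p f (f ω) ≤ s.card := by
    have h3 : ∀ ω, p ω / pr p f (f ω) = ∑ c ∈ s, if f ω = c then p ω / pr p f c else 0 := by
      intro ω
      rw [sum_ite_eq, if_pos (hs ω)]
    rw [sum_congr rfl fun ω _ => h3 ω, sum_comm]
    have h4 : ∀ c ∈ s, (∑ ω, if f ω = c then p ω / pr p f c else 0) ≤ 1 := by
      intro c _
      have h5 : (∑ ω, if f ω = c then p ω / pr p f c else 0) = pr p f c / pr p f c := by
        conv_rhs => enter [1]; unfold pr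
        rw [sum_div]
        refine sum_congr rfl fun ω _ => ?_
        split_ifs
        · rfl
        · rw [zero_div]
      rw [h5]
      exact div_self_le_one _
    refine (sum_le_sum h4).trans ?_
    simp
  have h3 := sum_le_sum fun ω (_ : ω ∈ (univ : Finset Ω)) => h1 ω
  rw [sum_neg_distrib, sum_add_distrib, sum_sub_distrib, ← sum_div, ← sum_mul, hp.sum_one,
    one_mul] at h3
  have h4 : (∑ ω, p ω / pr p f (f ω)) / s.card ≤ 1 := by
    rw [div_le_one hN']
    exact h2
  unfold ent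
  linarith

theorem ent_unif [Nonempty Ω] :
    ent (fun _ : Ω => (Fintype.card Ω : ℝ)⁻¹) (fun ω => ω) = Real.log (Fintype.card Ω) := by
  unfold ent
  simp only [pr_id]
  rw [sum_const, card_univ, nsmul_eq_mul, Real.log_inv]
  have : (Fintype.card Ω : ℝ) ≠ 0 := by
    exact_mod_cast Fintype.card_ne_zero
  field_simp

open Classical in
theorem ent_le_add_log {p : Ω → ℝ} (hp : IsProb p) (c : Ω → α) (m : ℕ) (hm0 : 0 < m)
    (hm : ∀ a, (univ.filter (fun ω => c ω = a)).card ≤ m) :
    ent p (fun ω => ω) ≤ ent p c + Real.log m := by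
  have hm' : (0 : ℝ) < m := by exact_mod_cast hm0
  have h1 : ∀ ω, -(p ω * Real.log (p ω)) + p ω * Real.log (pr p c (c ω)) ≤
      pr p c (c ω) / m - p ω + p ω * Real.log m := by
    intro ω
    rcases (hp.nonneg ω).eq_or_lt with h0 | h0
    · rw [← h0]
      have : 0 ≤ pr p c (c ω) := (hp.nonneg ω).trans (le_pr hp c ω)
      simp only [zero_mul, neg_zero, add_zero, sub_zero]
      positivity
    · have hP : 0 < pr p c (c ω) := h0.trans_le (le_pr hp c ω)
      have h2 := Real.log_le_sub_one_of_pos (show 0 < pr p c (c ω) / (m * p ω) by positivity)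
      rw [Real.log_div hP.ne' (by positivity), Real.log_mul hm'.ne' h0.ne'] at h2
      have h3 := mul_le_mul_of_nonneg_left h2 h0.le
      have h4 : p ω * (pr p c (c ω) / (m * p ω) - 1) = pr p c (c ω) / m - p ω := by
        field_simp
      rw [h4] at h3
      linarith
  have h2 : ∑ ω, pr p c (c ω) ≤ m := by
    unfold pr
    rw [sum_comm]
    have h3 : ∀ ω', (∑ ω, if c ω' = c ω then p ω' else 0) ≤ m * p ω' := by
      intro ω'
      rw [← sum_filter, sum_const, nsmul_eq_mul]
      refine mul_le_mul_of_nonneg_right ?_ (hp.nonneg ω')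
      have h4 := hm (c ω')
      have h5 : univ.filter (fun ω => c ω' = c ω) = univ.filter (fun ω => c ω = c ω') := by
        ext ω
        simp only [mem_filter, mem_univ, true_and]
        exact eq_comm
      rw [h5]
      exact_mod_cast h4
    refine (sum_le_sum fun ω' _ => h3 ω').trans ?_
    rw [← mul_sum, hp.sum_one, mul_one]
  have h3 := sum_le_sum fun ω (_ : ω ∈ (univ : Finset Ω)) => h1 ω
  rw [sum_add_distrib, sum_neg_distrib, sum_add_distrib, sum_sub_distrib, ← sum_div, ← sum_mul,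
    hp.sum_one, one_mul] at h3
  have h4 : (∑ ω, pr p c (c ω)) / m ≤ 1 := by
    rw [div_le_one hm']
    exact h2
  unfold ent
  simp only [pr_id]
  linarith

theorem cond_isProb {p : Ω → ℝ} (hp : IsProb p) (g : Ω → β) (ω₀ : Ω) (h : 0 < p ω₀) :
    IsProb (cond p g ω₀) := by
  classical
  have hP : 0 < pr p g (g ω₀) := h.trans_le (le_pr hp g ω₀)
  refine ⟨fun ω => ?_, ?_⟩
  · unfold cond
    split_ifs
    · exact div_nonneg (hp.nonneg ω) hP.le
    · exact le_rfl
  · unfold cond
    have h1 : ∀ ω, (if g ω = g ω₀ then p ω / pr p g (g ω₀) else 0) =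
        (if g ω = g ω₀ then p ω else 0) / pr p g (g ω₀) := by
      intro ω
      split_ifs
      · rfl
      · rw [zero_div]
    rw [sum_congr rfl fun ω _ => h1 ω, ← sum_div]
    exact div_self hP.ne'

theorem ent_cond {p : Ω → ℝ} (hp : IsProb p) (f : Ω → α) (g : Ω → β) :
    ∑ ω₀, p ω₀ * ent (cond p g ω₀) f = ent p (fun ω => (f ω, g ω)) - ent p g := by
  classical
  -- the conditional masses
  have h1 : ∀ ω₀ ω, g ω = g ω₀ → pr (cond p g ω₀) f (f ω) =
      pr p (fun ω => (f ω, g ω)) (f ω, g ω) / pr p g (g ω) := by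
    intro ω₀ ω hω
    unfold pr
    rw [sum_div]
    refine sum_congr rfl fun ω' _ => ?_
    unfold cond
    rw [hω]
    by_cases a1 : f ω' = f ω
    · by_cases a2 : g ω' = g ω₀
      · rw [if_pos a1, if_pos a2, if_pos (by simp [a1, a2])]
        rfl
      · rw [if_pos a1, if_neg a2, if_neg (by simp [a2]), zero_div]
    · rw [if_neg a1, if_neg (by simp [a1]), zero_div]
  set T : Ω → ℝ := fun ω => Real.log (pr p (fun ω => (f ω, g ω)) (f ω, g ω) / pr p g (g ω)) with hT
  have h2 : ∀ ω₀, p ω₀ * ent (cond p g ω₀) f =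
      -∑ ω, if g ω = g ω₀ then p ω₀ / pr p g (g ω) * (p ω * T ω) else 0 := by
    intro ω₀
    unfold ent
    rw [mul_neg, mul_sum, neg_inj]
    refine sum_congr rfl fun ω _ => ?_
    by_cases hω : g ω = g ω₀
    · rw [h1 ω₀ ω hω, if_pos hω]
      unfold cond
      rw [if_pos hω, hω, hT]
      dsimp only
      rw [hω]
      ring
    · rw [if_neg hω]
      unfold cond
      rw [if_neg hω, zero_mul, mul_zero]
  rw [sum_congr rfl fun ω₀ _ => h2 ω₀, sum_neg_distrib, sum_comm]
  have h3 : ∀ ω, (∑ ω₀, if g ω = g ω₀ then p ω₀ / pr p g (g ω) * (p ω * T ω) else 0) =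
      p ω * T ω := by
    intro ω
    rcases (hp.nonneg ω).eq_or_lt with h0 | h0
    · rw [← h0]
      simp
    · have hP : 0 < pr p g (g ω) := h0.trans_le (le_pr hp g ω)
      have h4 : ∀ ω₀, (if g ω = g ω₀ then p ω₀ / pr p g (g ω) * (p ω * T ω) else 0) =
          (if g ω₀ = g ω then p ω₀ else 0) / pr p g (g ω) * (p ω * T ω) := by
        intro ω₀
        by_cases hω : g ω₀ = g ω
        · rw [if_pos hω, if_pos hω.symm]
        · rw [if_neg hω, if_neg (fun h => hω h.symm), zero_div, zero_mul]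
      rw [sum_congr rfl fun ω₀ _ => h4 ω₀, ← sum_mul, ← sum_div]
      have h5 : (∑ ω₀, if g ω₀ = g ω then p ω₀ else 0) / pr p g (g ω) = 1 := div_self hP.ne'
      rw [h5, one_mul]
  rw [sum_congr rfl fun ω _ => h3 ω]
  unfold ent
  rw [sub_neg_eq_add, ← sub_eq_neg_add]
  have h4 : ∀ ω, p ω * T ω = p ω * Real.log (pr p (fun ω => (f ω, g ω)) (f ω, g ω)) -
      p ω * Real.log (pr p g (g ω)) := by
    intro ω
    rcases (hp.nonneg ω).eq_or_lt with h0 | h0
    · rw [← h0]
      simp
    · have hP : 0 < pr p g (g ω) := h0.trans_le (le_pr hp g ω)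
      have hQ : 0 < pr p (fun ω => (f ω, g ω)) (f ω, g ω) :=
        h0.trans_le (le_pr hp (fun ω => (f ω, g ω)) ω)
      rw [hT]
      dsimp only
      rw [Real.log_div hQ.ne' hP.ne', mul_sub]
  rw [sum_congr rfl fun ω _ => h4 ω, sum_sub_distrib]
  ring

private lemma pr_pm (p : Ω → ℝ) (q : Ω' → ℝ) (f : Ω → α) (g : Ω' → β) (c : α) (d : β) :
    pr (H59.Vec.pm p q) (fun x => (f x.1, g x.2)) (c, d) = pr p f c * pr q g d := by
  classical
  unfold pr
  rw [sum_mul_sum, ← univ_product_univ, sum_product]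
  refine sum_congr rfl fun a _ => sum_congr rfl fun b _ => ?_
  by_cases h1 : f a = c
  · by_cases h2 : g b = d
    · rw [if_pos h1, if_pos h2, if_pos (by simp [h1, h2])]
      rfl
    · rw [if_pos h1, if_neg h2, if_neg (by simp [h2]), mul_zero]
  · rw [if_neg h1, if_neg (by simp [h1]), zero_mul]

theorem cond_pm {p : Ω → ℝ} {q : Ω' → ℝ} (hp : IsProb p) (hq : IsProb q)
    (f : Ω → α) (g : Ω' → β) (a : Ω) (b : Ω') :
    cond (H59.Vec.pm p q) (fun x => (f x.1, g x.2)) (a, b)
      = H59.Vec.pm (cond p f a) (cond q g b) := by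
  classical
  funext x
  obtain ⟨x, y⟩ := x
  unfold cond
  dsimp only
  rw [pr_pm]
  unfold H59.Vec.pm
  dsimp only
  by_cases h1 : f x = f a
  · by_cases h2 : g y = g b
    · rw [if_pos h1, if_pos h2, if_pos (by simp [h1, h2])]
      rw [mul_div_mul_comm]
    · rw [if_pos h1, if_neg h2, if_neg (by simp [h2]), mul_zero]
  · rw [if_neg h1, if_neg (by simp [h1]), zero_mul]

end H59.Vec
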