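import Pool.Agent.H59.Vec.Defs
import Pool.Agent.H59.Vec.E1
import Pool.Agent.H59.Vec.E2
import Pool.Agent.H59.Vec.L
import Pool.Agent.H59.Vec.C

namespace H59.Vec

open Finset

universe u

variable {G : Type u} [AddCommGroup G]

private lemma law_val {A : Finset G} {μ : AddMonoidAlgebra ℝ G} (hμ : OnA A μ) :
    law (fun x : {x // x ∈ A} => μ.coeff x.1) (fun x => x.1) = μ := by
  classical
  have key : ∀ g, (law (fun x : {x // x ∈ A} => μ.coeff x.1) (fun x => x.1)).coeff g
      = μ.coeff g := by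
    intro g
    rw [law_coeff]
    unfold pr
    by_cases hg : g ∈ A
    · rw [Finset.sum_eq_single (⟨g, hg⟩ : {x // x ∈ A})]
      · simp
      · intro b _ hb
        rw [if_neg]
        intro h
        exact hb (Subtype.ext h)
      · intro h
        exact absurd (mem_univ _) h
    · have h0 : μ.coeff g = 0 := by
        by_contra h
        exact hg (hμ.2 g h)
      rw [h0]
      refine Finset.sum_eq_zero fun x _ => ?_
      rw [if_neg]
      intro h
      exact hg (h ▸ x.2)
  exact AddMonoidAlgebra.ext (Finsupp.ext key)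

private lemma isProb_val {A : Finset G} {μ : AddMonoidAlgebra ℝ G} (hμ : OnA A μ) :
    IsProb (fun x : {x // x ∈ A} => μ.coeff x.1) := by
  classical
  refine ⟨fun x => hμ.1.nonneg _, ?_⟩
  rw [Finset.sum_coe_sort A (fun x => μ.coeff x)]
  rw [← hμ.1.sum_one]
  symm
  refine Finset.sum_subset ?_ ?_
  · intro g hg
    exact hμ.2 g (Finsupp.mem_support_iff.1 hg)
  · intro g _ hg
    exact Finsupp.notMem_support_iff.1 hg

private lemma isProb_unif (M : ℕ) (hM : 0 < M) : IsProb (fun _ : Fin M => (M : ℝ)⁻¹) := by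
  have hM' : (M : ℝ) ≠ 0 := by exact_mod_cast hM.ne'
  refine ⟨fun _ => by positivity, ?_⟩
  rw [sum_const, card_univ, Fintype.card_fin, nsmul_eq_mul]
  exact mul_inv_cancel₀ hM'

private lemma ent_inj {Ω α : Type*} [Fintype Ω] {p : Ω → ℝ} (hp : IsProb p) (f : Ω → α)
    (hf : Function.Injective f) : ent p f = ent p (fun ω => ω) :=
  le_antisymm (ent_mono hp fun _ _ h => congrArg f h) (ent_mono hp fun _ _ h => hf h)

open Classical in
theorem line_lower {A : Finset G}
    (hA : ∀ h : G, h ≠ 0 → ∀ g, (A.filter (fun x => ∃ i : ℤ, x = g + i • h)).card ≤ 2)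
    (tf : ∀ h : G, h ≠ 0 → ∀ i : ℤ, i • h = 0 → i = 0)
    {μ : AddMonoidAlgebra ℝ G} (hμ : OnA A μ) {h : G} (hh : h ≠ 0) (M : ℕ) (hM : 0 < M) :
    Hm μ + Real.log M - Real.log 2
      ≤ Hm (μ * ∑ i ∈ range M, AddMonoidAlgebra.single (i • h) ((M : ℝ)⁻¹)) := by
  have hp := isProb_val hμ
  have hq := isProb_unif M hM
  have hlaw := law_val hμ
  have hu : (∑ i ∈ range M, AddMonoidAlgebra.single (i • h) ((M : ℝ)⁻¹))
      = law (fun _ : Fin M => (M : ℝ)⁻¹) (fun i : Fin M => (i : ℕ) • h) := by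
    unfold law
    rw [Finset.sum_range]
  have h1 : Hm (μ * ∑ i ∈ range M, AddMonoidAlgebra.single (i • h) ((M : ℝ)⁻¹))
      = ent (pm (fun x : {x // x ∈ A} => μ.coeff x.1) (fun _ : Fin M => (M : ℝ)⁻¹))
        (fun x : {x // x ∈ A} × Fin M => x.1.1 + (x.2 : ℕ) • h) := by
    conv_lhs => rw [← hlaw, hu, law_mul, Hm_law]
  have h2 : Hm μ = ent (fun x : {x // x ∈ A} => μ.coeff x.1) (fun x => x) := by
    conv_lhs => rw [← hlaw, Hm_law]
    exact ent_inj hp _ Subtype.val_injective
  have h3 : ent (fun _ : Fin M => (M : ℝ)⁻¹) (fun x => x) = Real.log M := by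
    have : Nonempty (Fin M) := ⟨⟨0, hM⟩⟩
    have := ent_unif (Ω := Fin M)
    rwa [Fintype.card_fin] at this
  have h4 := ent_prod hp hq (fun x => x) (fun x => x)
  have h5 := ent_le_add_log (hp.pm hq)
    (fun x : {x // x ∈ A} × Fin M => x.1.1 + (x.2 : ℕ) • h) 2 (by norm_num) (by
      intro a
      refine le_trans ?_ (hA h hh a)
      refine Finset.card_le_card_of_injOn (fun x => x.1.1) ?_ ?_
      · rintro ⟨x, i⟩ hx
        simp only [coe_filter, mem_univ, true_and, Set.mem_ofPred_eq] at hx ⊢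
        refine ⟨x.2, -(i : ℤ), ?_⟩
        rw [← hx, neg_smul, natCast_zsmul]
        abel
      · rintro ⟨x, i⟩ hx ⟨y, j⟩ hy hxy
        simp only [coe_filter, mem_univ, true_and, Set.mem_ofPred_eq] at hx hy hxy
        have e1 : (i : ℕ) • h = (j : ℕ) • h := by
          have : x.1 + (i : ℕ) • h = x.1 + (j : ℕ) • h := by
            rw [hx, ← hy, hxy]
          exact add_left_cancel this
        have e2 : ((i : ℤ) - (j : ℤ)) • h = 0 := by
          rw [sub_smul, natCast_zsmul, natCast_zsmul, e1, sub_self]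
        have e3 := tf h hh _ e2
        have e4 : i = j := by
          apply Fin.ext
          omega
        exact Prod.ext (Subtype.ext hxy) e4)
  rw [h1, h2]
  have h6 : ent (pm (fun x : {x // x ∈ A} => μ.coeff x.1) (fun _ : Fin M => (M : ℝ)⁻¹))
      (fun ω => ω) = ent (fun x : {x // x ∈ A} => μ.coeff x.1) (fun x => x) + Real.log M := by
    rw [← h3, ← h4]
  rw [h6] at h5
  push_cast at h5
  linarith

theorem bits (h : G) (n : ℕ) :
    ∏ j ∈ range n, (AddMonoidAlgebra.single (0 : G) (1 / 2 : ℝ)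
        + AddMonoidAlgebra.single ((2 ^ j) • h) (1 / 2 : ℝ))
      = ∑ i ∈ range (2 ^ n), AddMonoidAlgebra.single (i • h) (((2 ^ n : ℕ) : ℝ)⁻¹) := by
  induction n with
  | zero =>
    simp [AddMonoidAlgebra.one_def]
  | succ n ih =>
    rw [Finset.prod_range_succ, ih, pow_succ, mul_two, Finset.sum_range_add, mul_add,
      Finset.sum_mul, Finset.sum_mul]
    have e : ((2 ^ n : ℕ) : ℝ)⁻¹ * (1 / 2) = ((2 ^ n + 2 ^ n : ℕ) : ℝ)⁻¹ := by
      push_cast
      rw [← two_mul, mul_inv]
      ring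
    congr 1
    · refine Finset.sum_congr rfl fun i _ => ?_
      rw [AddMonoidAlgebra.single_mul_single, e, add_zero]
    · refine Finset.sum_congr rfl fun i _ => ?_
      rw [AddMonoidAlgebra.single_mul_single, e, ← add_smul, add_comm i]

end H59.Vec
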