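import Pool.Agent.H59.Vec.Defs
import Pool.Agent.H59.Vec.E1
import Pool.Agent.H59.Vec.E2
import Pool.Agent.H59.Vec.CPL
import Pool.Agent.H59.Vec.L
import Pool.Agent.H59.Vec.CC
import Pool.Agent.H59.Vec.C
import Pool.Agent.H59.Vec.N1

namespace H59.Vec

open Finset

universe u

variable {G : Type u} [AddCommGroup G]

section aux

variable {A : Type*} [Fintype A]

private theorem sum_pi_prod {ι : Type*} [Fintype ι] [DecidableEq ι] (g : ι → A → ℝ) :
    ∑ x : ι → A, ∏ i, g i (x i) = ∏ i, ∑ a, g i a := by
  rw [Finset.prod_univ_sum, Fintype.piFinset_univ]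

private theorem pw_isProb {p : A → ℝ} (hp : IsProb p) (m : ℕ) :
    IsProb (fun x : Fin m → A => ∏ i, p (x i)) := by
  refine ⟨fun x => Finset.prod_nonneg fun i _ => hp.nonneg _, ?_⟩
  rw [sum_pi_prod (fun _ a => p a)]
  simp [hp.sum_one]

private theorem marg1 {p : A → ℝ} (hp : IsProb p) {m : ℕ} (j : Fin m) (F : A → ℝ) :
    ∑ x : Fin m → A, (∏ i, p (x i)) * F (x j) = ∑ a, p a * F a := by
  have h1 : ∀ x : Fin m → A, (∏ i, p (x i)) * F (x j)
      = ∏ i, (p (x i) * (if i = j then F (x i) else 1)) := by
    intro x
    rw [Finset.prod_mul_distrib]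
    simp
  simp_rw [h1]
  rw [sum_pi_prod (fun i a => p a * (if i = j then F a else 1))]
  have h2 : ∀ i : Fin m, ∑ a, p a * (if i = j then F a else 1)
      = if i = j then ∑ a, p a * F a else 1 := by
    intro i
    by_cases hi : i = j
    · simp [hi]
    · simp [hi, hp.sum_one]
  simp_rw [h2]
  simp

private theorem marg2' {p : A → ℝ} (hp : IsProb p) {m : ℕ} {j k : Fin m} (hjk : j ≠ k)
    (F H : A → ℝ) :
    ∑ x : Fin m → A, (∏ i, p (x i)) * (F (x j) * H (x k))
      = (∑ a, p a * F a) * (∑ a, p a * H a) := by
  have h1 : ∀ x : Fin m → A, (∏ i, p (x i)) * (F (x j) * H (x k))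
      = ∏ i, (p (x i) * ((if i = j then F (x i) else 1) * (if i = k then H (x i) else 1))) := by
    intro x
    rw [Finset.prod_mul_distrib, Finset.prod_mul_distrib]
    simp
  simp_rw [h1]
  rw [sum_pi_prod (fun i a => p a * ((if i = j then F a else 1) * (if i = k then H a else 1)))]
  have h2 : ∀ i : Fin m, ∑ a, p a * ((if i = j then F a else 1) * (if i = k then H a else 1))
      = (if i = j then ∑ a, p a * F a else 1) * (if i = k then ∑ a, p a * H a else 1) := by
    intro i
    by_cases hi : i = j
    · have hik : i ≠ k := by rw [hi]; exact hjk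
      simp [hi, hjk]
    · by_cases hk : i = k
      · have hkj : k ≠ j := fun h => hjk h.symm
        simp [hk, hkj]
      · simp [hi, hk, hp.sum_one]
  simp_rw [h2]
  rw [Finset.prod_mul_distrib]
  simp

private theorem marg2 {p : A → ℝ} (hp : IsProb p) {m : ℕ} {j k : Fin m} (hjk : j ≠ k)
    (K : A → A → ℝ) :
    ∑ x : Fin m → A, (∏ i, p (x i)) * K (x j) (x k)
      = ∑ a, ∑ b, p a * p b * K a b := by
  classical
  have h1 : ∀ x : Fin m → A, (∏ i, p (x i)) * K (x j) (x k)
      = ∑ a, ∑ b, K a b * ((∏ i, p (x i)) *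
        ((fun c => if c = a then (1 : ℝ) else 0) (x j)
          * (fun c => if c = b then (1 : ℝ) else 0) (x k))) := by
    intro x
    rw [Finset.sum_eq_single (x j)]
    · rw [Finset.sum_eq_single (x k)]
      · simp; ring
      · intro b _ hb
        simp [Ne.symm hb]
      · simp
    · intro a _ ha
      simp [Ne.symm ha]
    · simp
  simp_rw [h1]
  rw [Finset.sum_comm]
  refine Finset.sum_congr rfl fun a _ => ?_
  rw [Finset.sum_comm]
  refine Finset.sum_congr rfl fun b _ => ?_
  rw [← Finset.mul_sum, marg2' hp hjk (fun c => if c = a then (1 : ℝ) else 0)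
    (fun c => if c = b then (1 : ℝ) else 0)]
  simp
  ring

private theorem pr_id {p : A → ℝ} (a : A) : pr p (fun x => x) a = p a := by
  classical
  unfold pr
  simp

private theorem ent_pw {p : A → ℝ} (hp : IsProb p) (m : ℕ) :
    ent (fun x : Fin m → A => ∏ i, p (x i)) (fun x => x) = m * ent p (fun a => a) := by
  unfold ent
  simp only [pr_id]
  have h1 : ∀ x : Fin m → A, (∏ i, p (x i)) * Real.log (∏ i, p (x i))
      = ∑ j, (∏ i, p (x i)) * Real.log (p (x j)) := by
    intro x
    by_cases hx : ∃ i, p (x i) = 0
    · obtain ⟨i, hi⟩ := hx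
      have : ∏ i, p (x i) = 0 := Finset.prod_eq_zero (Finset.mem_univ i) hi
      rw [this]; simp
    · push Not at hx
      rw [Real.log_prod (fun i _ => hx i), Finset.mul_sum]
  simp_rw [h1]
  rw [Finset.sum_comm]
  simp_rw [fun j => marg1 hp j (fun a => Real.log (p a))]
  simp

private theorem ent_pi_le {Ω : Type*} [Fintype Ω] {p : Ω → ℝ} (hp : IsProb p) {α : Type*} :
    ∀ (n : ℕ) (f : Fin n → Ω → α), ent p (fun ω => fun r => f r ω) ≤ ∑ r, ent p (f r) := by
  intro n
  induction n with
  | zero =>
    intro f
    have h : (fun ω => fun r => f r ω) = fun _ : Ω => (fun r : Fin 0 => Fin.elim0 r : Fin 0 → α) := by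
      funext ω r
      exact Fin.elim0 r
    rw [h, ent_const hp]
    simp
  | succ n ih =>
    intro f
    rw [Fin.sum_univ_succ]
    have h1 : ent p (fun ω => fun r => f r ω)
        ≤ ent p (fun ω => (f 0 ω, fun r : Fin n => f r.succ ω)) := by
      apply ent_mono hp
      intro ω ω' h
      simp only [Prod.mk.injEq] at h
      funext r
      refine Fin.cases ?_ ?_ r
      · exact h.1
      · intro i
        exact congrFun h.2 i
    have h2 := ent_subadd hp (f 0) (fun ω => fun r : Fin n => f r.succ ω)
    have h3 := ih (fun r => f r.succ)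
    linarith

end aux

private theorem doubling {n : ℕ} (x y : Fin (n + 1) → G)
    (h : ∀ r : Fin n, x r.castSucc - (2 : ℤ) • x r.succ = y r.castSucc - (2 : ℤ) • y r.succ) :
    ∀ d : ℕ, ∀ j : Fin (n + 1), (j : ℕ) + d = n →
      x j - y j = (2 ^ d : ℕ) • (x (Fin.last n) - y (Fin.last n)) := by
  intro d
  induction d with
  | zero =>
    intro j hj
    have : j = Fin.last n := by
      apply Fin.ext
      simpa using hj
    rw [this]; simp
  | succ d ih =>
    intro j hj
    have hjn : (j : ℕ) < n := by omega
    let r : Fin n := ⟨j, hjn⟩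
    have hr : r.castSucc = j := by
      apply Fin.ext; simp [r]
    have hs := ih r.succ (by simp [r]; omega)
    have h' := h r
    rw [hr] at h'
    have e1 : x j - y j = (2 : ℤ) • (x r.succ - y r.succ) := by
      rw [smul_sub]
      rw [sub_eq_sub_iff_sub_eq_sub] at h'
      exact h'
    rw [e1, hs, pow_succ, mul_comm, mul_smul]
    norm_cast

private theorem isLaw_half (g g' : G) :
    IsLaw (AddMonoidAlgebra.single g (1 / 2 : ℝ) + AddMonoidAlgebra.single g' (1 / 2 : ℝ)) := by
  have h : IsProb (fun _ : Bool => (1 / 2 : ℝ)) := ⟨fun _ => by norm_num, by simp⟩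
  have h2 := isLaw_law h (fun b : Bool => if b then g else g')
  unfold law at h2
  simpa using h2

private theorem isLaw_prod {ι : Type*} (s : Finset ι) (B : ι → AddMonoidAlgebra ℝ G)
    (hB : ∀ i ∈ s, IsLaw (B i)) : IsLaw (∏ i ∈ s, B i) := by
  classical
  induction s using Finset.induction_on with
  | empty => simpa using isLaw_one
  | insert a s ha ih =>
    rw [Finset.prod_insert ha]
    exact IsLaw.mul (hB a (Finset.mem_insert_self _ _))
      (ih fun i hi => hB i (Finset.mem_insert_of_mem hi))

/-- the uniform law on `0, h, ..., (M-1) h` with `M = 2 ^ m` -/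
private noncomputable def U (h : G) (m : ℕ) : AddMonoidAlgebra ℝ G :=
  ∑ i ∈ range (2 ^ m), AddMonoidAlgebra.single (i • h) (((2 ^ m : ℕ) : ℝ)⁻¹)

private theorem isLaw_U (h : G) (m : ℕ) : IsLaw (U h m) := by
  unfold U
  rw [← bits]
  exact isLaw_prod _ _ fun i _ => isLaw_half _ _

private theorem prod_B {n : ℕ} (x y : Fin (n + 1) → G)
    (h : ∀ r : Fin n, x r.castSucc - (2 : ℤ) • x r.succ = y r.castSucc - (2 : ℤ) • y r.succ) :
    ∏ j : Fin (n + 1), (AddMonoidAlgebra.single (x j) (1 / 2 : ℝ)
        + AddMonoidAlgebra.single (y j) (1 / 2 : ℝ))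
      = AddMonoidAlgebra.single (∑ j, y j) (1 : ℝ) * U (x (Fin.last n) - y (Fin.last n)) (n + 1) := by
  set hh := x (Fin.last n) - y (Fin.last n) with hhdef
  have h1 : ∀ j : Fin (n + 1), (AddMonoidAlgebra.single (x j) (1 / 2 : ℝ)
        + AddMonoidAlgebra.single (y j) (1 / 2 : ℝ))
      = AddMonoidAlgebra.single (y j) (1 : ℝ)
        * (AddMonoidAlgebra.single (0 : G) (1 / 2 : ℝ)
          + AddMonoidAlgebra.single ((2 ^ (n - (j : ℕ))) • hh) (1 / 2 : ℝ)) := by
    intro j
    have := doubling x y h (n - (j : ℕ)) j (by omega)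
    rw [mul_add, AddMonoidAlgebra.single_mul_single, AddMonoidAlgebra.single_mul_single]
    have e : x j = y j + (2 ^ (n - (j : ℕ))) • hh := by
      rw [← this]; abel
    rw [← e]
    simp [add_comm]
  rw [Finset.prod_congr rfl fun j _ => h1 j, Finset.prod_mul_distrib]
  congr 1
  · have : ∀ s : Finset (Fin (n + 1)), ∏ j ∈ s, AddMonoidAlgebra.single (y j) (1 : ℝ)
        = AddMonoidAlgebra.single (∑ j ∈ s, y j) (1 : ℝ) := by
      intro s
      classical
      induction s using Finset.induction_on with
      | empty => simp [AddMonoidAlgebra.one_def]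
      | insert a s ha ih =>
        rw [Finset.prod_insert ha, Finset.sum_insert ha, ih, AddMonoidAlgebra.single_mul_single]
        simp
    exact this _
  · unfold U
    rw [← bits, ← Finset.prod_range_reflect, Finset.prod_range]
    refine Finset.prod_congr rfl fun j _ => ?_
    congr 4

open Classical in
theorem chain {A : Finset G}
    (hA : ∀ h : G, h ≠ 0 → ∀ g, (A.filter (fun x => ∃ i : ℤ, x = g + i • h)).card ≤ 2)
    (tf : ∀ h : G, h ≠ 0 → ∀ i : ℤ, i • h = 0 → i = 0)
    {μ : AddMonoidAlgebra ℝ G} (hμ : OnA A μ) (n N : ℕ) (hN : 1 ≤ N) :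
    ∃ P : ℝ, 0 ≤ P ∧ P ≤ 1 ∧
      (n + 1) * Hm μ - n * Hm (μ * dil (-2) μ) ≤ Real.log 2 + P * Real.log A.card ∧
      Hm μ + P * (n * Real.log 2)
        ≤ Hm (μ ^ N) + (n + 1) * (Hm (μ ^ (N + 1)) - Hm (μ ^ N)) := by
  have hlawμ := hμ.1
  set p : A → ℝ := fun a => μ.coeff a with hpdef
  have hp : IsProb p := by
    refine ⟨fun a => hlawμ.nonneg _, ?_⟩
    rw [← hlawμ.sum_one]
    have : ∑ a : A, μ.coeff a = ∑ g ∈ A, μ.coeff g := Finset.sum_coe_sort A (fun g => μ.coeff g)
    rw [hpdef]
    simp only []
    rw [this]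
    symm
    apply Finset.sum_subset
    · intro g hg
      exact hμ.2 g (Finsupp.mem_support_iff.mp hg)
    · intro g _ hg
      exact Finsupp.notMem_support_iff.mp hg
  have hlp : law p (fun a : A => (a : G)) = μ := by
    apply AddMonoidAlgebra.coeff_injective
    ext g
    rw [law_coeff]
    unfold pr
    by_cases hg : g ∈ A
    · rw [Finset.sum_eq_single (⟨g, hg⟩ : A)]
      · simp [hpdef]
      · intro b _ hb
        have : (b : G) ≠ g := fun h => hb (Subtype.ext h)
        simp [this]
      · simp
    · rw [Finset.sum_eq_zero]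
      · by_contra hne
        exact hg (hμ.2 g (fun h => hne h.symm))
      · intro b _
        have : (b : G) ≠ g := fun h => hg (h ▸ b.2)
        simp [this]
  have hHμ : Hm μ = ent p (fun a : A => a) := by
    rw [← hlp, Hm_law]
    apply le_antisymm
    · exact ent_mono hp (fun a b h => by rw [h])
    · exact ent_mono hp (fun a b h => Subtype.ext h)
  set q : (Fin (n + 1) → A) → ℝ := fun x => ∏ i, p (x i) with hqdef
  have hq : IsProb q := pw_isProb hp (n + 1)
  set z : (Fin (n + 1) → A) → (Fin n → G) :=
    fun x => fun r => ((x r.castSucc : A) : G) - (2 : ℤ) • ((x r.succ : A) : G) with hzdef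
  have hEq : ent q (fun x => x) = (n + 1) * Hm μ := by
    rw [hHμ]
    have := ent_pw hp (n + 1)
    push_cast at this
    exact this
  have hEz : ent q z ≤ n * Hm (μ * dil (-2) μ) := by
    have h1 := ent_pi_le hq n
      (fun r x => ((x r.castSucc : A) : G) - (2 : ℤ) • ((x r.succ : A) : G))
    have h2 : ∀ r : Fin n, ent q (fun x => ((x r.castSucc : A) : G) - (2 : ℤ) • ((x r.succ : A) : G))
        = Hm (μ * dil (-2) μ) := by
      intro r
      have e : μ * dil (-2) μ = law (pm p p) (fun x => (x.1 : G) + (-2 : ℤ) • (x.2 : G)) := by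
        conv_lhs => rw [← hlp]
        rw [dil_law, law_mul]
      rw [e, Hm_law]
      apply ent_congr
      intro c
      unfold pr pm
      have e1 : ∀ x : Fin (n + 1) → A,
          (if ((x r.castSucc : A) : G) - (2 : ℤ) • ((x r.succ : A) : G) = c then q x else 0)
          = (∏ i, p (x i)) * (fun a b : A => if (a : G) - (2 : ℤ) • (b : G) = c then (1 : ℝ) else 0)
            (x r.castSucc) (x r.succ) := by
        intro x
        simp [hqdef]
      have e3 : ∑ x : Fin (n + 1) → A, (∏ i, p (x i))
          * (fun a b : A => if (a : G) - (2 : ℤ) • (b : G) = c then (1 : ℝ) else 0)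
            (x r.castSucc) (x r.succ)
          = ∑ a, ∑ b, p a * p b
            * (fun a b : A => if (a : G) - (2 : ℤ) • (b : G) = c then (1 : ℝ) else 0) a b := by
        have := marg2 hp (j := r.castSucc) (k := r.succ) (by
          intro h
          have := congrArg Fin.val h
          simp at this)
          (fun a b : A => if (a : G) - (2 : ℤ) • (b : G) = c then (1 : ℝ) else 0)
        convert this
      rw [Finset.sum_congr rfl fun x _ => e1 x, e3]
      rw [Fintype.sum_prod_type]
      refine Finset.sum_congr rfl fun a _ => Finset.sum_congr rfl fun b _ => ?_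
      have : (a : G) + (-2 : ℤ) • (b : G) = (a : G) - (2 : ℤ) • (b : G) := by
        rw [neg_smul, sub_eq_add_neg]
      simp only [this]
      simp
    simp_rw [h2] at h1
    simpa using h1
  have hfib : ∀ b, (univ.filter (fun x => z x = b)).card ≤ A.card := by
    intro b
    have h1 : (univ.filter (fun x => z x = b)).card ≤ (univ : Finset A).card := by
      apply Finset.card_le_card_of_injOn (fun x => x (Fin.last n))
      · intro x _
        simp
      · intro x hx y hy hxy
        simp only [Finset.coe_filter, Finset.mem_univ, true_and, Set.mem_ofPred_eq] at hx hy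
        funext j
        apply Subtype.ext
        have hd := doubling (fun i => ((x i : A) : G)) (fun i => ((y i : A) : G)) (fun r => by
          have := congrFun (hx.trans hy.symm) r
          exact this) (n - (j : ℕ)) j (by omega)
        have hxy' : ((x (Fin.last n) : A) : G) = ((y (Fin.last n) : A) : G) := by
          exact congrArg _ hxy
        rw [hxy', sub_self, smul_zero, sub_eq_zero] at hd
        exact hd
    simpa using h1
  have hcp := cpl_isProb hq z
  set P : ℝ := ∑ x : (Fin (n + 1) → A) × (Fin (n + 1) → A), if x.1 ≠ x.2 then cpl q z x else 0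
    with hPdef
  refine ⟨P, ?_, ?_, ?_, ?_⟩
  · exact Finset.sum_nonneg fun x _ => by split_ifs <;> [exact hcp.nonneg x; exact le_rfl]
  · rw [← hcp.sum_one]
    exact Finset.sum_le_sum fun x _ => by split_ifs <;> [exact le_rfl; exact hcp.nonneg x]
  · calc (n + 1) * Hm μ - n * Hm (μ * dil (-2) μ) ≤ ent q (fun x => x) - ent q z := by
          rw [hEq]; linarith
      _ ≤ _ := collision hq z A.card (fun b => by convert hfib b)
      _ = Real.log 2 + P * Real.log A.card := by
          rw [hPdef]
          congr!
  · -- the second inequality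
    set W := μ ^ N with hWdef
    have hW : IsLaw W := hlawμ.pow N
    set D : (Fin (n + 1) → A) × (Fin (n + 1) → A) → G :=
      fun x => ((x.1 (Fin.last n) : A) : G) - ((x.2 (Fin.last n) : A) : G) with hDdef
    set B : (Fin (n + 1) → A) × (Fin (n + 1) → A) → Fin (n + 1) → AddMonoidAlgebra ℝ G :=
      fun x j => AddMonoidAlgebra.single ((x.1 j : A) : G) (1 / 2 : ℝ)
        + AddMonoidAlgebra.single ((x.2 j : A) : G) (1 / 2 : ℝ) with hBdef
    have hBlaw : ∀ x j, IsLaw (B x j) := fun x j => isLaw_half _ _
    -- upper bound for every pair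
    have hup : ∀ x : (Fin (n + 1) → A) × (Fin (n + 1) → A), z x.1 = z x.2 →
        Hm (W * U (D x) (n + 1)) ≤ Hm W + ∑ j, (Hm (W * B x j) - Hm W) := by
      intro x hx
      have h1 := Hm_prod_le (univ : Finset (Fin (n + 1))) hW (B x) (fun j _ => hBlaw x j)
      have h2 := prod_B (fun i => ((x.1 i : A) : G)) (fun i => ((x.2 i : A) : G)) (fun r => by
          have := congrFun hx r
          exact this)
      have h3 : W * ∏ j, B x j = AddMonoidAlgebra.single (∑ j, ((x.2 j : A) : G)) (1 : ℝ)
          * (W * U (D x) (n + 1)) := by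
        rw [hBdef]
        simp only []
        rw [h2]
        ring
      rw [h3, Hm_single_mul] at h1
      exact h1
    -- lower bound
    have hWμ : Hm μ ≤ Hm W := by
      obtain ⟨k, rfl⟩ : ∃ k, N = k + 1 := ⟨N - 1, by omega⟩
      rw [hWdef, pow_succ']
      exact Hm_mono hlawμ (hlawμ.pow k)
    have hlow : ∀ x : (Fin (n + 1) → A) × (Fin (n + 1) → A), z x.1 = z x.2 →
        Hm μ + (if x.1 ≠ x.2 then (n * Real.log 2) else 0) ≤ Hm (W * U (D x) (n + 1)) := by
      intro x hx
      by_cases hxx : x.1 = x.2
      · have := Hm_mono hW (isLaw_U (D x) (n + 1))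
        simp only [hxx, ne_eq, not_true_eq_false, if_false, add_zero]
        linarith
      · have hD : D x ≠ 0 := by
          intro h0
          apply hxx
          funext j
          apply Subtype.ext
          have hd := doubling (fun i => ((x.1 i : A) : G)) (fun i => ((x.2 i : A) : G)) (fun r => by
            have := congrFun hx r
            exact this) (n - (j : ℕ)) j (by omega)
          rw [hDdef] at h0
          simp only [] at h0 hd
          rw [h0, smul_zero, sub_eq_zero] at hd
          exact hd
        have hl := line_lower hA tf hμ hD (2 ^ (n + 1)) (by positivity)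
        have hU : (∑ i ∈ range (2 ^ (n + 1)),
            AddMonoidAlgebra.single (i • D x) (((2 ^ (n + 1) : ℕ) : ℝ)⁻¹)) = U (D x) (n + 1) := rfl
        rw [hU] at hl
        have hlog : Real.log ((2 ^ (n + 1) : ℕ) : ℝ) = (n + 1) * Real.log 2 := by
          push_cast
          rw [Real.log_pow]
          push_cast
          ring
        rw [hlog] at hl
        obtain ⟨k, rfl⟩ : ∃ k, N = k + 1 := ⟨N - 1, by omega⟩
        have hm := Hm_mono (hlawμ.mul (isLaw_U (D x) (n + 1))) (hlawμ.pow k)
        have e : W * U (D x) (n + 1) = μ * U (D x) (n + 1) * μ ^ k := by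
          rw [hWdef, pow_succ']; ring
        rw [e]
        simp only [hxx, ne_eq, not_false_eq_true, if_true]
        linarith
    -- combine
    have hcomb : ∀ x : (Fin (n + 1) → A) × (Fin (n + 1) → A),
        cpl q z x * Hm μ + (if x.1 ≠ x.2 then cpl q z x else 0) * (n * Real.log 2)
          ≤ cpl q z x * Hm W + ∑ j, (cpl q z x * Hm (W * B x j) - cpl q z x * Hm W) := by
      intro x
      by_cases hx : z x.1 = z x.2
      · have h1 := (hlow x hx).trans (hup x hx)
        have h2 := mul_le_mul_of_nonneg_left h1 (hcp.nonneg x)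
        rw [mul_add, mul_add, Finset.mul_sum] at h2
        have e : cpl q z x * (if x.1 ≠ x.2 then (n * Real.log 2) else 0)
            = (if x.1 ≠ x.2 then cpl q z x else 0) * (n * Real.log 2) := by
          split_ifs <;> simp
        rw [e] at h2
        simpa only [mul_sub] using h2
      · have h0 : cpl q z x = 0 := by
          unfold cpl
          rw [if_neg hx]
        rw [h0]
        simp
    have hsum := Finset.sum_le_sum fun x (_ : x ∈ (univ : Finset ((Fin (n + 1) → A) × (Fin (n + 1) → A)))) =>
      hcomb x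
    rw [Finset.sum_add_distrib, Finset.sum_add_distrib, ← Finset.sum_mul, ← Finset.sum_mul,
      ← Finset.sum_mul, hcp.sum_one, ← hPdef, Finset.sum_comm] at hsum
    -- average of B
    have hBavg : ∀ j, ∑ x, cpl q z x • (W * B x j) = W * μ := by
      intro j
      have h1 : ∑ x : (Fin (n + 1) → A) × (Fin (n + 1) → A),
          cpl q z x • (AddMonoidAlgebra.single ((x.1 j : A) : G) (1 / 2 : ℝ)) = (1 / 2 : ℝ) • μ := by
        rw [Fintype.sum_prod_type]
        have e1 : ∀ x : Fin (n + 1) → A, ∑ y : Fin (n + 1) → A, cpl q z (x, y)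
            • (AddMonoidAlgebra.single ((x j : A) : G) (1 / 2 : ℝ))
            = AddMonoidAlgebra.single ((x j : A) : G) (q x * (1 / 2)) := by
          intro x
          rw [← Finset.sum_smul, cpl_fst hq, AddMonoidAlgebra.smul_single]
          simp
        simp_rw [e1]
        apply AddMonoidAlgebra.coeff_injective
        ext g
        rw [AddMonoidAlgebra.coeff_sum, Finsupp.finsetSum_apply]
        simp only [AddMonoidAlgebra.coeff_single, Finsupp.single_apply,
          AddMonoidAlgebra.coeff_smul, Finsupp.smul_apply]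
        conv_rhs => rw [← hlp]
        rw [law_coeff]
        unfold pr
        have e2 : ∀ x : Fin (n + 1) → A, (if ((x j : A) : G) = g then q x * (1 / 2) else 0)
            = (∏ i, p (x i)) * (fun a : A => if (a : G) = g then (1 / 2 : ℝ) else 0) (x j) := by
          intro x
          simp [hqdef]
        have e3 : ∑ x : Fin (n + 1) → A, (∏ i, p (x i))
            * (fun a : A => if (a : G) = g then (1 / 2 : ℝ) else 0) (x j)
            = ∑ a, p a * (fun a : A => if (a : G) = g then (1 / 2 : ℝ) else 0) a := by
          have := marg1 hp j (fun a : A => if (a : G) = g then (1 / 2 : ℝ) else 0)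
          convert this
        rw [Finset.sum_congr rfl fun x _ => e2 x, e3, smul_eq_mul, Finset.mul_sum]
        refine Finset.sum_congr rfl fun a _ => ?_
        by_cases hag : (a : G) = g
        · simp [hag, mul_comm]
        · simp [hag]
      have h2 : ∑ x : (Fin (n + 1) → A) × (Fin (n + 1) → A),
          cpl q z x • (AddMonoidAlgebra.single ((x.2 j : A) : G) (1 / 2 : ℝ)) = (1 / 2 : ℝ) • μ := by
        rw [Fintype.sum_prod_type_right]
        have e1 : ∀ y : Fin (n + 1) → A, ∑ x : Fin (n + 1) → A, cpl q z (x, y)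
            • (AddMonoidAlgebra.single ((y j : A) : G) (1 / 2 : ℝ))
            = AddMonoidAlgebra.single ((y j : A) : G) (q y * (1 / 2)) := by
          intro x
          rw [← Finset.sum_smul, cpl_snd hq, AddMonoidAlgebra.smul_single]
          simp
        simp_rw [e1]
        apply AddMonoidAlgebra.coeff_injective
        ext g
        rw [AddMonoidAlgebra.coeff_sum, Finsupp.finsetSum_apply]
        simp only [AddMonoidAlgebra.coeff_single, Finsupp.single_apply,
          AddMonoidAlgebra.coeff_smul, Finsupp.smul_apply]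
        conv_rhs => rw [← hlp]
        rw [law_coeff]
        unfold pr
        have e2 : ∀ x : Fin (n + 1) → A, (if ((x j : A) : G) = g then q x * (1 / 2) else 0)
            = (∏ i, p (x i)) * (fun a : A => if (a : G) = g then (1 / 2 : ℝ) else 0) (x j) := by
          intro x
          simp [hqdef]
        have e3 : ∑ x : Fin (n + 1) → A, (∏ i, p (x i))
            * (fun a : A => if (a : G) = g then (1 / 2 : ℝ) else 0) (x j)
            = ∑ a, p a * (fun a : A => if (a : G) = g then (1 / 2 : ℝ) else 0) a := by
          have := marg1 hp j (fun a : A => if (a : G) = g then (1 / 2 : ℝ) else 0)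
          convert this
        rw [Finset.sum_congr rfl fun x _ => e2 x, e3, smul_eq_mul, Finset.mul_sum]
        refine Finset.sum_congr rfl fun a _ => ?_
        by_cases hag : (a : G) = g
        · simp [hag, mul_comm]
        · simp [hag]
      have h3 : ∑ x, cpl q z x • B x j = μ := by
        rw [hBdef]
        simp only [smul_add]
        rw [Finset.sum_add_distrib, h1, h2, ← add_smul]
        norm_num
      rw [← h3, Finset.mul_sum]
      refine Finset.sum_congr rfl fun x _ => ?_
      rw [mul_smul_comm]
    have hconc : ∀ j, ∑ x, cpl q z x * Hm (W * B x j) ≤ Hm (W * μ) := by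
      intro j
      rw [← hBavg j]
      exact Hm_concave hcp (fun x => W * B x j) (fun x => hW.mul (hBlaw x j))
    have hfin : ∑ j : Fin (n + 1), ∑ x, (cpl q z x * Hm (W * B x j) - cpl q z x * Hm W)
        ≤ (n + 1) * (Hm (W * μ) - Hm W) := by
      have h1 : ∀ j : Fin (n + 1), ∑ x, (cpl q z x * Hm (W * B x j) - cpl q z x * Hm W)
          ≤ Hm (W * μ) - Hm W := by
        intro j
        rw [Finset.sum_sub_distrib, ← Finset.sum_mul, hcp.sum_one, one_mul]
        linarith [hconc j]
      have h2 := Finset.sum_le_sum fun j (_ : j ∈ (univ : Finset (Fin (n + 1)))) => h1 j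
      rw [Finset.sum_const, Finset.card_univ, Fintype.card_fin, nsmul_eq_mul] at h2
      push_cast at h2
      exact h2
    have hpow : μ ^ (N + 1) = W * μ := by rw [hWdef, pow_succ]
    rw [hpow]
    linarith

end H59.Vec
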