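import Pool.Agent.H59.Vec.GR
import Pool.Agent.H59.Vec.N2

namespace H59.Vec

open Finset

universe u

variable {G : Type u} [AddCommGroup G]

/-- the entropies of the convolution powers form a concave sequence -/
theorem pow_incr_anti {μ : AddMonoidAlgebra ℝ G} (hμ : IsLaw μ) (i : ℕ) :
    Hm (μ ^ (i + 2)) - Hm (μ ^ (i + 1)) ≤ Hm (μ ^ (i + 1)) - Hm (μ ^ i) := by
  have h := Hm_submod (α := μ) (β := μ ^ i) (γ := μ) hμ (hμ.pow i) hμ
  have e1 : μ * μ ^ i * μ = μ ^ (i + 2) := by ring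
  have e2 : μ * μ ^ i = μ ^ (i + 1) := by ring
  have e3 : μ ^ i * μ = μ ^ (i + 1) := by ring
  rw [e1, e2, e3] at h
  linarith

theorem pow_incr_le {μ : AddMonoidAlgebra ℝ G} (hμ : IsLaw μ) (i j : ℕ) (hij : i ≤ j) :
    Hm (μ ^ (j + 1)) - Hm (μ ^ j) ≤ Hm (μ ^ (i + 1)) - Hm (μ ^ i) := by
  induction j, hij using Nat.le_induction with
  | base => exact le_rfl
  | succ j _ ih => exact (pow_incr_anti hμ j).trans ih

/-- `N * (last increment) ≤ total growth` -/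
theorem pow_incr_total {μ : AddMonoidAlgebra ℝ G} (hμ : IsLaw μ) (N : ℕ) :
    N * (Hm (μ ^ (N + 1)) - Hm (μ ^ N)) ≤ Hm (μ ^ (N + 1)) - Hm μ := by
  have key : ∀ M : ℕ, M ≤ N →
      M * (Hm (μ ^ (N + 1)) - Hm (μ ^ N)) ≤ Hm (μ ^ (M + 1)) - Hm (μ ^ 1) := by
    intro M
    induction M with
    | zero => intro _; simp
    | succ M ih =>
      intro hM
      have h1 := ih (by omega)
      have h2 := pow_incr_le hμ (M + 1) N hM
      push_cast
      have e : M + 1 + 1 = M + 2 := rfl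
      rw [e] at h2 ⊢
      linarith
  have := key N le_rfl
  simpa using this

open Pointwise Classical in
theorem main_ineq {A : Finset G} (hA0 : A.Nonempty)
    (hA : ∀ h : G, h ≠ 0 → ∀ g, (A.filter (fun x => ∃ i : ℤ, x = g + i • h)).card ≤ 2)
    (tf : ∀ h : G, h ≠ 0 → ∀ i : ℤ, i • h = 0 → i = 0)
    {k : ℝ} (hk : Real.log ((A - A).card : ℝ) ≤ Real.log (A.card : ℝ) + k)
    (I n : ℕ) (hI : 1 ≤ I) (hn : n + 2 ≤ 2 ^ I)
    (hbig : 48 * I * k < n * Real.log 2) :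
    Real.log (A.card : ℝ) ≤ 2 * Real.log 2 + 8 * I * k + 12 * n * k := by
  obtain ⟨μ, hμ, h1, h2, h3⟩ := growth hA0 hk I hI
  obtain ⟨N, hN⟩ : ∃ N, N + 1 = 2 ^ I := ⟨2 ^ I - 1, by omega⟩
  obtain ⟨P, hP0, hP1, h4, h5⟩ := chain hA tf hμ n N (by omega)
  rw [← hN] at h2
  have hlog2 : 0 < Real.log 2 := Real.log_pos (by norm_num)
  have hA1 : (1 : ℝ) ≤ A.card := by exact_mod_cast hA0.card_pos
  have hlogA : 0 ≤ Real.log (A.card : ℝ) := Real.log_nonneg hA1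
  have h6 := pow_incr_total hμ.1 N
  have h7 : 0 ≤ Hm (μ ^ (N + 1)) - Hm (μ ^ N) := by
    have := Hm_mono (μ := μ ^ N) (ν := μ) (hμ.1.pow N) hμ.1
    rw [← pow_succ] at this
    linarith
  have h8 : ((n : ℝ) + 1) * (Hm (μ ^ (N + 1)) - Hm (μ ^ N))
      ≤ N * (Hm (μ ^ (N + 1)) - Hm (μ ^ N)) := by
    apply mul_le_mul_of_nonneg_right _ h7
    have : n + 1 ≤ N := by omega
    exact_mod_cast this
  have h9 : P * (n * Real.log 2) ≤ 24 * I * k := by nlinarith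
  have hPhalf : P < 1 / 2 := by
    by_contra hcon
    push Not at hcon
    have : (1 / 2 : ℝ) * (n * Real.log 2) ≤ P * (n * Real.log 2) :=
      mul_le_mul_of_nonneg_right hcon (by positivity)
    nlinarith
  have h10 : P * Real.log (A.card : ℝ) ≤ 1 / 2 * Real.log (A.card : ℝ) :=
    mul_le_mul_of_nonneg_right hPhalf.le hlogA
  have h11 : (n : ℝ) * Hm (μ * dil (-2) μ) ≤ n * (Hm μ + 6 * k) :=
    mul_le_mul_of_nonneg_left h3 (by positivity)
  nlinarith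

end H59.Vec
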