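import Pool.Agent.H59.Vec.F1

namespace H59.Vec

open Finset

universe u

variable {G : Type u} [AddCommGroup G]

open Pointwise Classical in
/-- Explicit form: a set without three collinear points of doubling `exp k` has at most
`exp (20000 (k+1)^2 log (k+2))` points. -/
theorem main_bound {A : Finset G} (hA0 : A.Nonempty)
    (hA : ∀ h : G, h ≠ 0 → ∀ g, (A.filter (fun x => ∃ i : ℤ, x = g + i • h)).card ≤ 2)
    (tf : ∀ h : G, h ≠ 0 → ∀ i : ℤ, i • h = 0 → i = 0)
    {k : ℝ} (hk0 : 0 ≤ k) (hk : Real.log ((A - A).card : ℝ) ≤ Real.log (A.card : ℝ) + k) :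
    Real.log (A.card : ℝ) ≤ 20000 * (k + 1) ^ 2 * Real.log (k + 2) := by
  have hlog2 : (0.6931471803 : ℝ) < Real.log 2 := Real.log_two_gt_d9
  have hlog2' : Real.log 2 < 0.6931471808 := Real.log_two_lt_d9
  have hk2 : (2 : ℝ) ≤ k + 2 := by linarith
  have hlk : Real.log 2 ≤ Real.log (k + 2) := Real.log_le_log (by norm_num) hk2
  set y : ℝ := Real.logb 2 (k + 2) with hy
  have hy1 : 1 ≤ y := by
    rw [hy, Real.le_logb_iff_rpow_le (by norm_num) (by linarith)]
    simpa using hk2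
  have hyl : y * Real.log 2 = Real.log (k + 2) := by
    rw [hy, Real.logb]; field_simp
  obtain ⟨I, hI⟩ : ∃ I : ℕ, I = ⌈12 + 2 * y⌉₊ := ⟨_, rfl⟩
  have hI1 : 12 + 2 * y ≤ I := by rw [hI]; exact Nat.le_ceil _
  have hI2 : (I : ℝ) ≤ 13 + 2 * y := by
    have : (I : ℝ) < 12 + 2 * y + 1 := by
      rw [hI]; exact Nat.ceil_lt_add_one (by positivity)
    linarith
  have hIpos : 1 ≤ I := by
    have : (1 : ℝ) ≤ I := by linarith
    exact_mod_cast this
  -- 2 ^ I ≥ 4096 (k+2)^2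
  have hpow : 4096 * (k + 2) ^ 2 ≤ (2 : ℝ) ^ I := by
    have h1 : (2 : ℝ) ^ (12 + 2 * y) ≤ (2 : ℝ) ^ (I : ℝ) :=
      Real.rpow_le_rpow_of_exponent_le (by norm_num) hI1
    have h2 : (2 : ℝ) ^ (12 + 2 * y) = 4096 * (k + 2) ^ 2 := by
      rw [Real.rpow_add (by norm_num), mul_comm 2 y, Real.rpow_mul (by norm_num)]
      rw [hy, Real.rpow_logb (by norm_num) (by norm_num) (by linarith)]
      norm_num
    rw [h2, Real.rpow_natCast] at h1
    exact h1
  have hyk : y ≤ k + 2 := by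
    have h1 : Real.log (k + 2) ≤ (k + 2) / 2 := by
      have := Real.log_le_sub_one_of_pos (show (0 : ℝ) < (k + 2) / 2 by linarith)
      rw [Real.log_div (by linarith) (by norm_num)] at this
      linarith
    nlinarith
  obtain ⟨n, hn⟩ : ∃ n : ℕ, n = ⌊70 * I * k⌋₊ + 1 := ⟨_, rfl⟩
  have hIR : (0 : ℝ) ≤ I := by positivity
  have hIk : 0 ≤ 70 * (I : ℝ) * k := by positivity
  have hn1 : 70 * I * k < (n : ℝ) := by
    rw [hn]; push_cast; exact Nat.lt_floor_add_one _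
  have hn2 : (n : ℝ) ≤ 70 * I * k + 1 := by
    rw [hn]; push_cast
    have := Nat.floor_le hIk
    linarith
  have hnI : n + 2 ≤ 2 ^ I := by
    have : (n : ℝ) + 2 ≤ (2 : ℝ) ^ I := by
      refine le_trans ?_ hpow
      nlinarith
    exact_mod_cast this
  have hbig : 48 * I * k < n * Real.log 2 := by
    have h0 : 0 ≤ (I : ℝ) * k := by positivity
    nlinarith
  have hmain := main_ineq hA0 hA tf hk I n hIpos hnI hbig
  -- now numerics
  have hIy : (I : ℝ) * Real.log 2 ≤ 13 * Real.log 2 + 2 * Real.log (k + 2) := by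
    nlinarith
  have hIl : (I : ℝ) ≤ 22 * Real.log (k + 2) := by
    nlinarith
  set ℓ := Real.log (k + 2) with hℓ
  have hℓ0 : 0.69 ≤ ℓ := by linarith
  have h1 : 12 * (n : ℝ) * k ≤ 12 * (70 * I * k + 1) * k := by
    have := mul_le_mul_of_nonneg_right hn2 hk0
    linarith
  have h2 : (I : ℝ) * k ^ 2 ≤ 22 * ℓ * k ^ 2 := by
    apply mul_le_mul_of_nonneg_right hIl (by positivity)
  have h3 : (I : ℝ) * k ≤ 22 * ℓ * k := mul_le_mul_of_nonneg_right hIl hk0
  have h4 : 0 ≤ ℓ * k := by positivity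
  have h5 : 0 ≤ ℓ * k ^ 2 := by positivity
  nlinarith

end H59.Vec
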