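import Pool.Agent.H59.Vec.Defs
import Pool.Agent.H59.Vec.E1
import Pool.Agent.H59.Vec.E2
import Pool.Agent.H59.Vec.L
import Pool.Agent.H59.Vec.C

namespace H59.Vec

open Finset

universe u

variable {G : Type u} [AddCommGroup G]

theorem continuous_pr {Ω α : Type*} [Fintype Ω] (f : Ω → α) (c : α) :
    Continuous fun p : Ω → ℝ => pr p f c := by
  classical
  unfold pr
  refine continuous_finsetSum _ fun ω _ => ?_
  by_cases h : f ω = c
  · simpa [h] using continuous_apply ω
  · simpa [h] using continuous_const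

theorem continuous_ent {Ω α : Type*} [Fintype Ω] (f : Ω → α) :
    Continuous fun p : Ω → ℝ => ent p f := by
  classical
  have h : (fun p : Ω → ℝ => ent p f)
      = fun p => ∑ c ∈ univ.image f, Real.negMulLog (pr p f c) := by
    funext p
    exact e1_ent_eq_sum p f _ fun ω => Finset.mem_image_of_mem f (Finset.mem_univ ω)
  rw [h]
  exact continuous_finsetSum _ fun c _ => Real.continuous_negMulLog.comp (continuous_pr f c)

theorem continuous_pm {Ω Ω' : Type*} :
    Continuous fun x : (Ω → ℝ) × (Ω' → ℝ) => pm x.1 x.2 := by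
  refine continuous_pi fun y => ?_
  exact ((continuous_apply y.1).comp continuous_fst).mul
    ((continuous_apply y.2).comp continuous_snd)

theorem isProb_of_mem {Ω : Type*} [Fintype Ω] {p : Ω → ℝ} (h : p ∈ stdSimplex ℝ Ω) :
    IsProb p := ⟨h.1, h.2⟩

theorem onA_law {A : Finset G} {p : A → ℝ} (h : IsProb p) :
    OnA A (law p (fun a : A => (a : G))) := by
  refine ⟨isLaw_law h _, fun g hg => ?_⟩
  by_contra hgA
  refine hg ?_
  rw [law_coeff]
  exact e1_pr_eq_zero fun a ha => hgA (ha ▸ a.2)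

theorem law_of_onA {A : Finset G} {μ : AddMonoidAlgebra ℝ G} (h : OnA A μ) :
    IsProb (fun a : A => μ.coeff a) ∧ law (fun a : A => μ.coeff a) (fun a : A => (a : G)) = μ := by
  classical
  constructor
  · refine ⟨fun a => h.1.nonneg _, ?_⟩
    rw [← h.1.sum_one, Finset.sum_coe_sort A (fun g => μ.coeff g)]
    symm
    refine Finset.sum_subset (fun g hg => h.2 g (Finsupp.mem_support_iff.1 hg)) ?_
    intro g _ hg
    exact Finsupp.notMem_support_iff.1 hg
  · apply AddMonoidAlgebra.coeffEquiv.injective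
    apply Finsupp.ext
    intro g
    show (law _ _).coeff g = μ.coeff g
    rw [law_coeff]
    by_cases hg : g ∈ A
    · unfold pr
      rw [Finset.sum_eq_single (⟨g, hg⟩ : A)]
      · simp
      · intro b _ hb
        exact if_neg fun h => hb (Subtype.ext h)
      · intro h
        exact absurd (Finset.mem_univ _) h
    · rw [e1_pr_eq_zero (f := fun a : A => (a : G)) (fun a ha => hg (by rw [← ha]; exact a.2))]
      by_contra h1
      exact hg (h.2 g fun h2 => h1 h2.symm)

theorem Fn_law {A : Finset G} (t : ℝ) (p q : A → ℝ) :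
    Fn t (law p (fun a : A => (a : G))) (law q (fun a : A => (a : G)))
      = ent (pm p q) (fun x : A × A => (x.1 : G) + (-1 : ℤ) • (x.2 : G))
        - (1 + t) / 2 * (ent p (fun a : A => (a : G)) + ent q (fun a : A => (a : G))) := by
  unfold Fn
  rw [dil_law, law_mul, Hm_law, Hm_law, Hm_law]

theorem exists_min (A : Finset G) (hA : A.Nonempty) (t : ℝ) :
    ∃ μ ν : AddMonoidAlgebra ℝ G, OnA A μ ∧ OnA A ν ∧
      ∀ μ' ν', OnA A μ' → OnA A ν' → Fn t μ ν ≤ Fn t μ' ν' := by
  classical
  obtain ⟨a0, ha0⟩ := hA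
  let F : (A → ℝ) × (A → ℝ) → ℝ := fun x =>
    ent (pm x.1 x.2) (fun x : A × A => (x.1 : G) + (-1 : ℤ) • (x.2 : G))
        - (1 + t) / 2 * (ent x.1 (fun a : A => (a : G)) + ent x.2 (fun a : A => (a : G)))
  have hcomp : IsCompact (stdSimplex ℝ A ×ˢ stdSimplex ℝ A) :=
    (isCompact_stdSimplex ℝ A).prod (isCompact_stdSimplex ℝ A)
  have hne : (stdSimplex ℝ A ×ˢ stdSimplex ℝ A).Nonempty :=
    ⟨(Pi.single ⟨a0, ha0⟩ 1, Pi.single ⟨a0, ha0⟩ 1),
      ⟨single_mem_stdSimplex ℝ _, single_mem_stdSimplex ℝ _⟩⟩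
  have hcont : Continuous F := by
    refine Continuous.sub ?_ (continuous_const.mul (Continuous.add ?_ ?_))
    · exact (continuous_ent _).comp continuous_pm
    · exact (continuous_ent _).comp continuous_fst
    · exact (continuous_ent _).comp continuous_snd
  obtain ⟨x, hx, hmin⟩ := hcomp.exists_isMinOn hne hcont.continuousOn
  have hall := isMinOn_iff.1 hmin
  refine ⟨law x.1 (fun a : A => (a : G)), law x.2 (fun a : A => (a : G)),
    onA_law (isProb_of_mem hx.1), onA_law (isProb_of_mem hx.2), ?_⟩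
  intro μ' ν' hμ hν
  obtain ⟨h1, h2⟩ := law_of_onA hμ
  obtain ⟨h3, h4⟩ := law_of_onA hν
  have h := hall (fun a : A => μ'.coeff a, fun a : A => ν'.coeff a)
    ⟨⟨h1.nonneg, h1.sum_one⟩, ⟨h3.nonneg, h3.sum_one⟩⟩
  rw [← h2, ← h4, Fn_law, Fn_law]
  exact h

end H59.Vec
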