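import Pool.Agent.H59.Vec.Defs
import Pool.Agent.H59.Vec.E1
import Pool.Agent.H59.Vec.E2
import Pool.Agent.H59.Vec.CPL
import Pool.Agent.H59.Vec.L
import Pool.Agent.H59.Vec.C

namespace H59.Vec

open Finset

universe u

variable {G : Type u} [AddCommGroup G]

private theorem pr_fst_aux {Ω Ω' γ : Type*} [Fintype Ω] [Fintype Ω'] (p : Ω → ℝ) {q : Ω' → ℝ}
    (hq : IsProb q) (f : Ω → γ) (c : γ) : pr (pm p q) (fun x => f x.1) c = pr p f c := by
  classical
  unfold pr pm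
  rw [Fintype.sum_prod_type]
  refine Finset.sum_congr rfl fun a _ => ?_
  by_cases h : f a = c
  · simp only [h, if_true]
    rw [← Finset.mul_sum, hq.sum_one, mul_one]
  · simp [h]

private theorem pr_snd_aux {Ω Ω' γ : Type*} [Fintype Ω] [Fintype Ω'] {p : Ω → ℝ} (q : Ω' → ℝ)
    (hp : IsProb p) (f : Ω' → γ) (c : γ) : pr (pm p q) (fun x => f x.2) c = pr q f c := by
  classical
  unfold pr pm
  rw [Fintype.sum_prod_type_right]
  refine Finset.sum_congr rfl fun a _ => ?_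
  by_cases h : f a = c
  · simp only [h, if_true]
    rw [← Finset.sum_mul, hp.sum_one, one_mul]
  · simp [h]

omit [AddCommGroup G] in
private theorem law_ext {μ ν : AddMonoidAlgebra ℝ G} (h : ∀ g, μ.coeff g = ν.coeff g) :
    μ = ν := by
  have : μ.coeff = ν.coeff := Finsupp.ext h
  cases μ; cases ν; simp_all

private theorem law_fst_aux {Ω Ω' : Type*} [Fintype Ω] [Fintype Ω'] (p : Ω → ℝ) {q : Ω' → ℝ}
    (hq : IsProb q) (f : Ω → G) : law (pm p q) (fun x => f x.1) = law p f :=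
  law_ext fun g => by rw [law_coeff, law_coeff, pr_fst_aux p hq]

private theorem law_snd_aux {Ω Ω' : Type*} [Fintype Ω] [Fintype Ω'] {p : Ω → ℝ} (q : Ω' → ℝ)
    (hp : IsProb p) (f : Ω' → G) : law (pm p q) (fun x => f x.2) = law q f :=
  law_ext fun g => by rw [law_coeff, law_coeff, pr_snd_aux q hp]

/-- values of positive probability -/
private theorem mem_of_law {Ω : Type*} [Fintype Ω] {p : Ω → ℝ} (hp : IsProb p) {f : Ω → G}
    {A : Finset G} (h : ∀ g, (law p f).coeff g ≠ 0 → g ∈ A) {ω : Ω} (hω : p ω ≠ 0) :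
    f ω ∈ A := by
  classical
  refine h _ ?_
  rw [law_coeff]
  unfold pr
  have h1 : p ω ≤ ∑ ω', if f ω' = f ω then p ω' else 0 := by
    have := Finset.single_le_sum (f := fun ω' => if f ω' = f ω then p ω' else 0)
      (s := Finset.univ) (fun i _ => by
        split_ifs
        · exact hp.nonneg i
        · exact le_rfl) (Finset.mem_univ ω)
    simpa using this
  have h2 : 0 < p ω := lt_of_le_of_ne (hp.nonneg ω) (Ne.symm hω)
  exact ne_of_gt (lt_of_lt_of_le h2 h1)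

private theorem onA_of {Ω : Type*} [Fintype Ω] {p : Ω → ℝ} (hp : IsProb p) {f : Ω → G}
    {A : Finset G} (h : ∀ ω, p ω ≠ 0 → f ω ∈ A) : OnA A (law p f) := by
  classical
  refine ⟨isLaw_law hp f, fun g hg => ?_⟩
  rw [law_coeff] at hg
  unfold pr at hg
  obtain ⟨ω, _, hω⟩ := Finset.exists_ne_zero_of_sum_ne_zero hg
  by_cases h1 : f ω = g
  · rw [if_pos h1] at hω
    exact h1 ▸ h ω hω
  · rw [if_neg h1] at hω
    exact absurd rfl hω

/-- the abstract form on two spaces -/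
private theorem star_aux {Ω₁ Ω₂ : Type u} [Fintype Ω₁] [Fintype Ω₂] {A : Finset G} {t : ℝ}
    (ht : 0 ≤ t) {F0 : ℝ}
    (hmin : ∀ μ' ν' : AddMonoidAlgebra ℝ G, OnA A μ' → OnA A ν' → F0 ≤ Fn t μ' ν')
    {p : Ω₁ → ℝ} {q : Ω₂ → ℝ} (hp : IsProb p) (hq : IsProb q)
    (X U : Ω₁ → G) (Z V : Ω₂ → G)
    (hX : ∀ ω, p ω ≠ 0 → X ω ∈ A) (hZ : ∀ ω, q ω ≠ 0 → Z ω ∈ A) :
    F0 + (1 + t) / 2 * ((ent p (fun ω => (X ω, X ω + U ω)) - ent p (fun ω => X ω + U ω))
        + (ent q (fun ω => (Z ω, Z ω + V ω)) - ent q (fun ω => Z ω + V ω)))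
      ≤ ent (pm p q) (fun x => (X x.1 - Z x.2, (X x.1 + U x.1, Z x.2 + V x.2)))
        - ent (pm p q) (fun x => (X x.1 + U x.1, Z x.2 + V x.2)) := by
  classical
  have hP : IsProb (pm p q) := hp.pm hq
  -- pointwise inequality
  have hpt : ∀ a b, p a * q b * (F0 + (1 + t) / 2 * (ent (cond p (fun ω => X ω + U ω) a) X
        + ent (cond q (fun ω => Z ω + V ω) b) Z))
      ≤ p a * q b * ent (cond (pm p q) (fun x : Ω₁ × Ω₂ => (X x.1 + U x.1, Z x.2 + V x.2))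
          (a, b)) (fun x => X x.1 - Z x.2) := by
    intro a b
    rcases eq_or_lt_of_le (hp.nonneg a) with ha | ha
    · rw [← ha]; simp
    rcases eq_or_lt_of_le (hq.nonneg b) with hb | hb
    · rw [← hb]; simp
    refine mul_le_mul_of_nonneg_left ?_ (mul_pos ha hb).le
    have hc1 : IsProb (cond p (fun ω => X ω + U ω) a) := cond_isProb hp _ a ha
    have hc2 : IsProb (cond q (fun ω => Z ω + V ω) b) := cond_isProb hq _ b hb
    have hA1 : OnA A (law (cond p (fun ω => X ω + U ω) a) X) := by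
      refine onA_of hc1 fun ω hω => hX ω fun h0 => hω ?_
      unfold cond
      rw [h0]; simp
    have hA2 : OnA A (law (cond q (fun ω => Z ω + V ω) b) Z) := by
      refine onA_of hc2 fun ω hω => hZ ω fun h0 => hω ?_
      unfold cond
      rw [h0]; simp
    have h := hmin _ _ hA1 hA2
    unfold Fn at h
    rw [dil_law, law_mul, Hm_law, Hm_law, Hm_law] at h
    rw [cond_pm hp hq (fun ω => X ω + U ω) (fun ω => Z ω + V ω) a b]
    have he : (fun x : Ω₁ × Ω₂ => X x.1 + (-1 : ℤ) • Z x.2) = fun x => X x.1 - Z x.2 := by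
      funext x; rw [neg_one_zsmul, sub_eq_add_neg]
    rw [he] at h
    linarith
  have hsum := Finset.sum_le_sum fun (x : Ω₁ × Ω₂) (_ : x ∈ Finset.univ) => hpt x.1 x.2
  have hR : ∑ x : Ω₁ × Ω₂, p x.1 * q x.2 * ent (cond (pm p q)
      (fun x : Ω₁ × Ω₂ => (X x.1 + U x.1, Z x.2 + V x.2)) (x.1, x.2)) (fun x => X x.1 - Z x.2)
      = ent (pm p q) (fun x => (X x.1 - Z x.2, (X x.1 + U x.1, Z x.2 + V x.2)))
        - ent (pm p q) (fun x => (X x.1 + U x.1, Z x.2 + V x.2)) :=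
    ent_cond hP (fun x : Ω₁ × Ω₂ => X x.1 - Z x.2) _
  rw [hR] at hsum
  refine le_trans (le_of_eq ?_) hsum
  have e1 := ent_cond hp X (fun ω => X ω + U ω)
  have e2 := ent_cond hq Z (fun ω => Z ω + V ω)
  rw [← e1, ← e2, Fintype.sum_prod_type]
  have s1 : ∀ a b, p a * q b * (F0 + (1 + t) / 2 * (ent (cond p (fun ω => X ω + U ω) a) X
        + ent (cond q (fun ω => Z ω + V ω) b) Z))
      = p a * q b * F0 + ((1 + t) / 2 * (p a * ent (cond p (fun ω => X ω + U ω) a) X)) * q b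
        + (1 + t) / 2 * (p a * (q b * ent (cond q (fun ω => Z ω + V ω) b) Z)) := by
    intro a b; ring
  simp only [s1, Finset.sum_add_distrib, ← Finset.mul_sum, ← Finset.sum_mul, hp.sum_one,
    hq.sum_one]
  ring

theorem star {A : Finset G} {t : ℝ} (ht : 0 ≤ t) {μ ν : AddMonoidAlgebra ℝ G}
    (hμ : OnA A μ) (hν : OnA A ν)
    (hmin : ∀ μ' ν', OnA A μ' → OnA A ν' → Fn t μ ν ≤ Fn t μ' ν')
    {α β : AddMonoidAlgebra ℝ G} (hα : IsLaw α) (hβ : IsLaw β) :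
    Hm ((μ * α) * dil (-1) (ν * β)) ≤ Hm (α * dil (-1) β)
      + (1 + t) / 2 * (Hm (μ * α) - Hm α + (Hm (ν * β) - Hm β)) := by
  classical
  obtain ⟨hμl, hμA⟩ := hμ
  obtain ⟨hνl, hνA⟩ := hν
  obtain ⟨ΩX, _, pX, X, hpX, rfl⟩ := hμl.exists_rep
  obtain ⟨ΩU, _, pU, U, hpU, rfl⟩ := hα.exists_rep
  obtain ⟨ΩZ, _, pZ, Z, hpZ, rfl⟩ := hνl.exists_rep
  obtain ⟨ΩV, _, pV, V, hpV, rfl⟩ := hβ.exists_rep
  have hp : IsProb (pm pX pU) := hpX.pm hpU
  have hq : IsProb (pm pZ pV) := hpZ.pm hpV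
  have hP : IsProb (pm (pm pX pU) (pm pZ pV)) := hp.pm hq
  have hXA : ∀ ω : ΩX × ΩU, pm pX pU ω ≠ 0 → X ω.1 ∈ A := fun ω hω =>
    mem_of_law hpX hμA (left_ne_zero_of_mul hω)
  have hZA : ∀ ω : ΩZ × ΩV, pm pZ pV ω ≠ 0 → Z ω.1 ∈ A := fun ω hω =>
    mem_of_law hpZ hνA (left_ne_zero_of_mul hω)
  have key := star_aux ht hmin hp hq (fun ω => X ω.1) (fun ω => U ω.2) (fun ω => Z ω.1)
    (fun ω => V ω.2) hXA hZA
  -- the joint laws of summand and sum
  have j1 : Hm (law pX X) + Hm (law pU U)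
      ≤ ent (pm pX pU) (fun ω => (X ω.1, X ω.1 + U ω.2)) := by
    rw [Hm_law, Hm_law, ← ent_prod hpX hpU X U]
    refine ent_mono hp fun ω ω' h => ?_
    simp only [Prod.mk.injEq] at h ⊢
    refine ⟨h.1, ?_⟩
    have h2 := h.2
    rw [h.1] at h2
    exact add_left_cancel h2
  have j2 : Hm (law pZ Z) + Hm (law pV V)
      ≤ ent (pm pZ pV) (fun ω => (Z ω.1, Z ω.1 + V ω.2)) := by
    rw [Hm_law, Hm_law, ← ent_prod hpZ hpV Z V]
    refine ent_mono hq fun ω ω' h => ?_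
    simp only [Prod.mk.injEq] at h ⊢
    refine ⟨h.1, ?_⟩
    have h2 := h.2
    rw [h.1] at h2
    exact add_left_cancel h2
  -- submodularity
  have m1 := ent_master (c := fun x : (ΩX × ΩU) × (ΩZ × ΩV) =>
      (X x.1.1 + U x.1.2) - (Z x.2.1 + V x.2.2)) hP
    (f := fun x : (ΩX × ΩU) × (ΩZ × ΩV) => (X x.1.1 + U x.1.2, Z x.2.1 + V x.2.2))
    (g := fun x : (ΩX × ΩU) × (ΩZ × ΩV) => (X x.1.1 - Z x.2.1,
      (X x.1.1 + U x.1.2) - (Z x.2.1 + V x.2.2)))
    (fun ω ω' h => by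
      simp only [Prod.mk.injEq] at h
      simp only [h.1, h.2])
    (fun ω ω' h => by
      simp only [Prod.mk.injEq] at h
      exact h.2)
  have m2 : ent (pm (pm pX pU) (pm pZ pV)) (fun x => (X x.1.1 - Z x.2.1,
        (X x.1.1 + U x.1.2, Z x.2.1 + V x.2.2)))
      ≤ ent (pm (pm pX pU) (pm pZ pV)) (fun x => ((X x.1.1 + U x.1.2, Z x.2.1 + V x.2.2),
        (X x.1.1 - Z x.2.1, (X x.1.1 + U x.1.2) - (Z x.2.1 + V x.2.2)))) := by
    refine ent_mono hP fun ω ω' h => ?_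
    simp only [Prod.mk.injEq] at h ⊢
    exact ⟨h.2.1, h.1⟩
  have m3 : ent (pm (pm pX pU) (pm pZ pV)) (fun x => (X x.1.1 - Z x.2.1,
        (X x.1.1 + U x.1.2) - (Z x.2.1 + V x.2.2)))
      ≤ ent (pm (pm pX pU) (pm pZ pV)) (fun x => (X x.1.1 - Z x.2.1,
        U x.1.2 - V x.2.2)) := by
    refine ent_mono hP fun ω ω' h => ?_
    simp only [Prod.mk.injEq] at h ⊢
    refine ⟨h.1, ?_⟩
    rw [add_sub_add_comm, add_sub_add_comm, h.1, h.2]
  have m4 := ent_subadd hP (fun x : (ΩX × ΩU) × (ΩZ × ΩV) => X x.1.1 - Z x.2.1)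
    (fun x => U x.1.2 - V x.2.2)
  -- identify the laws
  have hneg : ∀ g : G, (-1 : ℤ) • g = -g := fun g => neg_one_zsmul g
  have i1 : Hm (law pX X * dil (-1) (law pZ Z))
      = ent (pm (pm pX pU) (pm pZ pV)) (fun x => X x.1.1 - Z x.2.1) := by
    rw [← law_fst_aux pX hpU X, ← law_fst_aux pZ hpV Z, dil_law, law_mul, Hm_law]
    simp only [hneg, ← sub_eq_add_neg]
  have i2 : Hm (law pU U * dil (-1) (law pV V))
      = ent (pm (pm pX pU) (pm pZ pV)) (fun x => U x.1.2 - V x.2.2) := by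
    rw [← law_snd_aux pU hpX U, ← law_snd_aux pV hpZ V, dil_law, law_mul, Hm_law]
    simp only [hneg, ← sub_eq_add_neg]
  have i3 : Hm ((law pX X * law pU U) * dil (-1) (law pZ Z * law pV V))
      = ent (pm (pm pX pU) (pm pZ pV))
        (fun x => (X x.1.1 + U x.1.2) - (Z x.2.1 + V x.2.2)) := by
    rw [law_mul, law_mul, dil_law, law_mul, Hm_law]
    simp only [hneg, ← sub_eq_add_neg]
  have i4 : Hm (law pX X * law pU U) = ent (pm pX pU) (fun x => X x.1 + U x.2) := by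
    rw [law_mul, Hm_law]
  have i5 : Hm (law pZ Z * law pV V) = ent (pm pZ pV) (fun x => Z x.1 + V x.2) := by
    rw [law_mul, Hm_law]
  unfold Fn at key
  rw [i1] at key
  rw [i2, i3, i4, i5]
  have hc : 0 ≤ (1 + t) / 2 := by linarith
  have k1 := mul_le_mul_of_nonneg_left (add_le_add j1 j2) hc
  linarith [key, k1, m1, m2, m3, m4]

end H59.Vec
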