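import Pool.Agent.H59.Vec.Defs
import Pool.Agent.H59.Vec.E1
import Pool.Agent.H59.Vec.E2
import Pool.Agent.H59.Vec.L
import Pool.Agent.H59.Vec.C
import Pool.Agent.H59.Vec.S1
import Pool.Agent.H59.Vec.S2

namespace H59.Vec

open Finset

universe u

variable {G : Type u} [AddCommGroup G]

/-- a law on `A` is the law of the inclusion of `A` -/
private theorem gr_law_val {A : Finset G} {μ : AddMonoidAlgebra ℝ G} (hμ : OnA A μ) :
    law (fun x : A => μ.coeff (x : G)) (fun x : A => (x : G)) = μ := by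
  classical
  have h : (law (fun x : A => μ.coeff (x : G)) (fun x : A => (x : G))).coeff = μ.coeff := by
    ext g
    rw [law_coeff]
    unfold pr
    by_cases hg : g ∈ A
    · rw [Finset.sum_eq_single (⟨g, hg⟩ : A)]
      · simp
      · intro b _ hb
        rw [if_neg]
        intro h
        exact hb (Subtype.ext h)
      · intro h
        exact absurd (Finset.mem_univ _) h
    · have h0 : μ.coeff g = 0 := by
        by_contra h
        exact hg (hμ.2 g h)
      rw [h0]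
      apply Finset.sum_eq_zero
      intro x _
      rw [if_neg]
      intro h
      exact hg (h ▸ x.2)
  exact AddMonoidAlgebra.ext h

omit [AddCommGroup G] in
private theorem gr_isProb {A : Finset G} {μ : AddMonoidAlgebra ℝ G} (hμ : OnA A μ) :
    IsProb (fun x : A => μ.coeff (x : G)) := by
  classical
  refine ⟨fun x => hμ.1.nonneg _, ?_⟩
  rw [← hμ.1.sum_one]
  rw [Finset.sum_coe_sort A (fun g => μ.coeff g)]
  symm
  apply Finset.sum_subset
  · intro g hg
    exact hμ.2 g (Finsupp.mem_support_iff.1 hg)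
  · intro g _ hg
    exact Finsupp.notMem_support_iff.1 hg

private theorem gr_le_log {A : Finset G} {μ : AddMonoidAlgebra ℝ G} (hμ : OnA A μ) :
    Hm μ ≤ Real.log (A.card : ℝ) := by
  conv_lhs => rw [← gr_law_val hμ]
  rw [Hm_law]
  exact ent_le_log_card (gr_isProb hμ) _ A (fun x => x.2)

open Pointwise Classical in
private theorem gr_unif {A : Finset G} (hA : A.Nonempty) :
    ∃ u : AddMonoidAlgebra ℝ G, OnA A u ∧ Hm u = Real.log (A.card : ℝ) ∧
      Hm (u * dil (-1) u) ≤ Real.log ((A - A).card : ℝ) := by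
  classical
  have : Nonempty A := hA.to_subtype
  have hc : (0 : ℝ) < A.card := by exact_mod_cast hA.card_pos
  have hp : IsProb (fun _ : A => (Fintype.card A : ℝ)⁻¹) := by
    refine ⟨fun _ => by positivity, ?_⟩
    rw [Finset.sum_const, Finset.card_univ, nsmul_eq_mul]
    apply mul_inv_cancel₀
    simpa using hc.ne'
  refine ⟨law (fun _ : A => (Fintype.card A : ℝ)⁻¹) (fun x : A => (x : G)),
    ⟨isLaw_law hp _, ?_⟩, ?_, ?_⟩
  · intro g hg
    rw [law_coeff] at hg
    unfold pr at hg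
    by_contra hgA
    apply hg
    apply Finset.sum_eq_zero
    intro x _
    rw [if_neg]
    intro h
    exact hgA (h ▸ x.2)
  · rw [Hm_law]
    have h1 : ent (fun _ : A => (Fintype.card A : ℝ)⁻¹) (fun x : A => (x : G))
        = ent (fun _ : A => (Fintype.card A : ℝ)⁻¹) (fun x : A => x) := by
      apply le_antisymm
      · exact ent_mono hp (fun a b h => by rw [h])
      · exact ent_mono hp (fun a b h => Subtype.ext h)
    rw [h1, ent_unif]
    simp
  · rw [dil_law, law_mul, Hm_law]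
    apply ent_le_log_card (hp.pm hp)
    intro x
    have : (x.1 : G) + (-1 : ℤ) • (x.2 : G) = (x.1 : G) - (x.2 : G) := by
      rw [neg_one_zsmul, sub_eq_add_neg]
    rw [this]
    exact Finset.sub_mem_sub x.1.2 x.2.2

private theorem gr_pow_bound (I : ℕ) (hI : 1 ≤ I) (i : ℕ) (hi : i ≤ I) :
    (1 + 1 / (I : ℝ)) ^ i ≤ 3 := by
  have hI0 : (0 : ℝ) < I := by exact_mod_cast hI
  have h1 : 1 + 1 / (I : ℝ) ≤ Real.exp (1 / I) := by
    have := Real.add_one_le_exp (1 / (I : ℝ))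
    linarith
  have h2 : (1 + 1 / (I : ℝ)) ^ i ≤ (1 + 1 / (I : ℝ)) ^ I := by
    apply pow_le_pow_right₀ _ hi
    have : 0 ≤ 1 / (I : ℝ) := by positivity
    linarith
  have h3 : (1 + 1 / (I : ℝ)) ^ I ≤ (Real.exp (1 / I)) ^ I := by
    apply pow_le_pow_left₀ (by positivity) h1
  have h4 : (Real.exp (1 / I)) ^ I = Real.exp 1 := by
    rw [← Real.exp_nat_mul]
    congr 1
    field_simp
  have h5 : Real.exp 1 < 3 := by
    have := Real.exp_one_lt_d9
    linarith
  linarith [h2.trans h3]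

open Pointwise Classical in
theorem growth {A : Finset G} (hA : A.Nonempty) {k : ℝ}
    (hk : Real.log ((A - A).card : ℝ) ≤ Real.log (A.card : ℝ) + k) (I : ℕ) (hI : 1 ≤ I) :
    ∃ μ : AddMonoidAlgebra ℝ G, OnA A μ ∧
      Real.log (A.card : ℝ) - 4 * I * k ≤ Hm μ ∧
      Hm (μ ^ (2 ^ I)) ≤ Hm μ + 12 * I * k ∧
      Hm (μ * dil (-2) μ) ≤ Hm μ + 6 * k := by
  have hI0 : (0 : ℝ) < I := by exact_mod_cast hI
  set t : ℝ := 1 / (2 * I) with ht
  have ht0 : 0 < t := by positivity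
  obtain ⟨μ, ν, hμ, hν, hmin⟩ := exists_min A hA t
  obtain ⟨u, hu, hu1, hu2⟩ := gr_unif hA
  have hμ1 := hμ.1
  have hν1 := hν.1
  have hdν := hν1.dil (-1)
  have hdμ := hμ1.dil (-1)
  set a : ℕ → ℝ := fun n => Hm (μ ^ n) with ha
  set b : ℕ → ℝ := fun n => Hm (ν ^ n) with hb
  set D : ℕ → ℝ := fun n => Hm (μ ^ n * dil (-1) (ν ^ n)) with hD
  have a1 : a 1 = Hm μ := by simp [ha]
  have b1 : b 1 = Hm ν := by simp [hb]
  have D1 : D 1 = Hm (μ * dil (-1) ν) := by simp [hD]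
  -- the minimal value
  have hF := hmin u u hu hu
  unfold Fn at hF
  rw [hu1] at hF
  have hmA : Hm μ ≤ Real.log (A.card : ℝ) := gr_le_log hμ
  have hnA : Hm ν ≤ Real.log (A.card : ℝ) := gr_le_log hν
  have hDa : Hm μ ≤ Hm (μ * dil (-1) ν) := Hm_mono hμ1 hdν
  have hDb : Hm ν ≤ Hm (μ * dil (-1) ν) := by
    have := Hm_mono hdν hμ1
    rw [Hm_neg, mul_comm] at this
    exact this
  set m : ℝ := D 1 - (a 1 + b 1) / 2 with hm
  have hm0 : 0 ≤ m := by
    rw [hm, D1, a1, b1]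
    linarith
  have hFm : m - t * ((a 1 + b 1) / 2) ≤ k - t * Real.log (A.card : ℝ) := by
    rw [hm, D1, a1, b1]
    nlinarith [hF, hu2, hk]
  have hmk : m ≤ k := by
    have : t * ((a 1 + b 1) / 2) ≤ t * Real.log (A.card : ℝ) := by
      apply mul_le_mul_of_nonneg_left _ ht0.le
      rw [a1, b1]; linarith
    linarith
  have hs : Real.log (A.card : ℝ) - (a 1 + b 1) / 2 ≤ 2 * I * k := by
    have h1 : t * (Real.log (A.card : ℝ) - (a 1 + b 1) / 2) ≤ k := by linarith
    have h2 : Real.log (A.card : ℝ) - (a 1 + b 1) / 2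
        = 2 * I * (t * (Real.log (A.card : ℝ) - (a 1 + b 1) / 2)) := by
      rw [ht]; field_simp
    rw [h2]
    apply mul_le_mul_of_nonneg_left h1 (by positivity)
  -- the step
  have hstep : ∀ n, D (n + 1) ≤ D n + (1 + t) / 2 * (a (n + 1) - a n + (b (n + 1) - b n)) := by
    intro n
    have h := star ht0.le hμ hν hmin (hμ1.pow n) (hν1.pow n)
    simp only [ha, hb, hD]
    have e1 : μ * μ ^ n = μ ^ (n + 1) := by ring
    have e2 : ν * ν ^ n = ν ^ (n + 1) := by ring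
    rw [e1, e2] at h
    exact h
  have hDn : ∀ n, D (n + 1) ≤ m + (a 1 + b 1) / 2
      + (1 + t) * ((a (n + 1) + b (n + 1)) / 2 - (a 1 + b 1) / 2) := by
    intro n
    induction n with
    | zero =>
      simp only [zero_add]
      rw [hm]; linarith
    | succ n ih =>
      have := hstep (n + 1)
      nlinarith [this, ih]
  have hda : ∀ n, a (n + n) + b n ≤ 2 * D n := by
    intro n
    simp only [ha, hb, hD]
    have h1 := Hm_submod (hμ1.pow n) ((hν1.pow n).dil (-1)) (hμ1.pow n)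
    have h2 := Hm_mono (hμ1.pow (n + n)) ((hν1.pow n).dil (-1))
    have e1 : μ ^ n * dil (-1) (ν ^ n) * μ ^ n = μ ^ (n + n) * dil (-1) (ν ^ n) := by ring
    have e2 : dil (-1) (ν ^ n) * μ ^ n = μ ^ n * dil (-1) (ν ^ n) := by ring
    rw [e1, e2, Hm_neg] at h1
    linarith
  have hdb : ∀ n, b (n + n) + a n ≤ 2 * D n := by
    intro n
    simp only [ha, hb, hD]
    have h1 := Hm_submod (hν1.pow n) ((hμ1.pow n).dil (-1)) (hν1.pow n)
    have h2 := Hm_mono (hν1.pow (n + n)) ((hμ1.pow n).dil (-1))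
    have e1 : ν ^ n * dil (-1) (μ ^ n) * ν ^ n = ν ^ (n + n) * dil (-1) (μ ^ n) := by ring
    have e2 : ν ^ n * dil (-1) (μ ^ n) = dil (-1) (μ ^ n) * ν ^ n := by ring
    have e3 : Hm (dil (-1) (μ ^ n) * ν ^ n) = Hm (μ ^ n * dil (-1) (ν ^ n)) := by
      rw [← Hm_neg (μ := μ ^ n * dil (-1) (ν ^ n)), map_mul, dil_dil]
      norm_num [dil_one]
    rw [e1, e2, Hm_neg, e3] at h1
    linarith
  -- doubling
  have hdouble : ∀ n, (a (n + 1 + (n + 1)) + b (n + 1 + (n + 1))) / 2 - (a 1 + b 1) / 2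
      ≤ 2 * m + (1 + 2 * t) * ((a (n + 1) + b (n + 1)) / 2 - (a 1 + b 1) / 2) := by
    intro n
    have h1 := hda (n + 1)
    have h2 := hdb (n + 1)
    have h3 := hDn n
    nlinarith [h1, h2, h3]
  have h2t : 1 + 2 * t = 1 + 1 / (I : ℝ) := by
    rw [ht]; field_simp
  have hge : ∀ n, 0 ≤ (a (n + 1) + b (n + 1)) / 2 - (a 1 + b 1) / 2 := by
    intro n
    have h1 : a 1 ≤ a (n + 1) := by
      simp only [ha]
      have := Hm_mono hμ1 (hμ1.pow n)
      have e : μ * μ ^ n = μ ^ (n + 1) := by ring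
      rw [e] at this
      simpa using this
    have h2 : b 1 ≤ b (n + 1) := by
      simp only [hb]
      have := Hm_mono hν1 (hν1.pow n)
      have e : ν * ν ^ n = ν ^ (n + 1) := by ring
      rw [e] at this
      simpa using this
    linarith
  have hpow : ∀ i : ℕ, (a (2 ^ i) + b (2 ^ i)) / 2 - (a 1 + b 1) / 2
      ≤ 2 * m * i * (1 + 1 / (I : ℝ)) ^ i := by
    intro i
    induction i with
    | zero => simp
    | succ i ih =>
      obtain ⟨n, hn⟩ : ∃ n, 2 ^ i = n + 1 :=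
        ⟨2 ^ i - 1, by have := Nat.one_le_two_pow (n := i); omega⟩
      have h := hdouble n
      rw [← hn] at h
      have e : 2 ^ (i + 1) = 2 ^ i + 2 ^ i := by rw [pow_succ]; ring
      rw [e, h2t] at *
      have hq : (1 : ℝ) ≤ 1 + 1 / (I : ℝ) := by
        have : 0 ≤ 1 / (I : ℝ) := by positivity
        linarith
      have hq1 : (1 : ℝ) ≤ (1 + 1 / (I : ℝ)) ^ (i + 1) := one_le_pow₀ hq
      calc (a (2 ^ i + 2 ^ i) + b (2 ^ i + 2 ^ i)) / 2 - (a 1 + b 1) / 2
          ≤ 2 * m + (1 + 1 / (I : ℝ)) * ((a (2 ^ i) + b (2 ^ i)) / 2 - (a 1 + b 1) / 2) := h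
        _ ≤ 2 * m + (1 + 1 / (I : ℝ)) * (2 * m * i * (1 + 1 / (I : ℝ)) ^ i) := by
            have := mul_le_mul_of_nonneg_left ih (by linarith : (0 : ℝ) ≤ 1 + 1 / (I : ℝ))
            linarith
        _ = 2 * m + 2 * m * i * (1 + 1 / (I : ℝ)) ^ (i + 1) := by ring
        _ ≤ 2 * m * (1 + 1 / (I : ℝ)) ^ (i + 1) + 2 * m * i * (1 + 1 / (I : ℝ)) ^ (i + 1) := by
            have := mul_le_mul_of_nonneg_left hq1 (by linarith : (0 : ℝ) ≤ 2 * m)
            linarith
        _ = 2 * m * ((i + 1 : ℕ) : ℝ) * (1 + 1 / (I : ℝ)) ^ (i + 1) := by push_cast; ring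
  have hI6 : (a (2 ^ I) + b (2 ^ I)) / 2 - (a 1 + b 1) / 2 ≤ 6 * I * m := by
    have h1 := hpow I
    have h2 := gr_pow_bound I hI I le_rfl
    have h3 : 2 * m * I * (1 + 1 / (I : ℝ)) ^ I ≤ 2 * m * I * 3 :=
      mul_le_mul_of_nonneg_left h2 (by positivity)
    linarith
  have hbI : b 1 ≤ b (2 ^ I) := by
    simp only [hb]
    obtain ⟨n, hn⟩ : ∃ n, 2 ^ I = n + 1 :=
      ⟨2 ^ I - 1, by have := Nat.one_le_two_pow (n := I); omega⟩
    have := Hm_mono hν1 (hν1.pow n)
    have e : ν * ν ^ n = ν ^ (n + 1) := by ring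
    rw [e, ← hn] at this
    simpa using this
  -- Ruzsa
  have hr : Hm (μ * dil (-1) μ) ≤ a 1 + 2 * m := by
    have h := Hm_ruzsa hμ1 hν1 hμ1
    have e3 : Hm (ν * dil (-1) μ) = Hm (μ * dil (-1) ν) := by
      rw [← Hm_neg (μ := μ * dil (-1) ν), map_mul, dil_dil, mul_comm]
      norm_num [dil_one]
    rw [e3] at h
    rw [hm, D1, a1, b1]
    linarith
  have hr3 : Hm (μ * dil (-1) μ * dil (-1) μ) ≤ a 1 + 4 * m := by
    have h := Hm_submod hdμ hμ1 hdμ
    have e1 : dil (-1) μ * μ * dil (-1) μ = μ * dil (-1) μ * dil (-1) μ := by ring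
    have e2 : dil (-1) μ * μ = μ * dil (-1) μ := by ring
    rw [e1, e2] at h
    rw [a1] at hr ⊢
    linarith
  refine ⟨μ, hμ, ?_, ?_, ?_⟩
  · rw [← a1]
    have : b 1 ≤ Real.log (A.card : ℝ) := by rw [b1]; exact hnA
    linarith
  · have h1 : a (2 ^ I) ≤ a 1 + 12 * I * m := by linarith
    have h2 : 12 * (I : ℝ) * m ≤ 12 * I * k := mul_le_mul_of_nonneg_left hmk (by positivity)
    rw [← a1]
    show a (2 ^ I) ≤ _
    linarith
  · have h := Hm_two hμ1
    rw [a1] at hr hr3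
    linarith

end H59.Vec
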